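import Mathlib

/-!
For even k the shift-pair limit f(k) equals k / (2k + 2); in particular f(4) = 2/5.

Lower bound: a uniformly random permutation of the n points, E S = the point of S with the smallest
label has an even number of points of S before it.

Upper bound: by iterated ultrafilter limits pass to a consistent spreadable family of laws of patterns
(structure Sys). With m background points on both sides of k + 1 window points, patterns of
neighbouring windows are nearly conditionally independent given the patterns of the shorter windows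
(lemma gap, an energy increment argument), so window by window the law is approximated by the linear
part of a rotation-invariant law of cyclic sequences of length k + 1 (lemma tower); in such a sequence
at most (k + 1) / 2 of the k + 1 cyclic steps go from 1 to 0 (lemma rot_bound).
-/

set_option autoImplicit false

namespace Pool.Agent.Results.MP_a60f11_co.EvenValues

section

open MeasureTheory ProbabilityTheory Filter Topology

/-- (A, B) is a (k, n)-shift pair: there are i_0 < ... < i_k in Fin n such that A consists of the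
first k of them and B of the last k of them. -/
def IsShiftPair (k n : ℕ) (P : Finset (Fin n) × Finset (Fin n)) : Prop :=
  ∃ i : Fin (k + 1) → Fin n, StrictMono i ∧
    P.1 = Finset.univ.image (fun j : Fin k => i j.castSucc) ∧
    P.2 = Finset.univ.image (fun j : Fin k => i j.succ)

/-- The minimum, over all (k, n)-shift pairs (A, B), of the probability that E A occurs while
E B does not. -/
noncomputable def minProb {Ω : Type} [MeasurableSpace Ω] (μ : Measure Ω) (k n : ℕ)
    (E : Finset (Fin n) → Set Ω) : ℝ :=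
  ⨅ P : {P : Finset (Fin n) × Finset (Fin n) // IsShiftPair k n P}, μ.real (E P.1.1 ∩ (E P.1.2)ᶜ)

/-- The supremum f(n, k) of minProb over all probability spaces carrying an event E S for every
k-element subset S of Fin n. -/
noncomputable def fnk (n k : ℕ) : ℝ :=
  sSup {t : ℝ | ∃ (Ω : Type) (_ : MeasurableSpace Ω) (μ : Measure Ω) (_ : IsProbabilityMeasure μ)
    (E : Finset (Fin n) → Set Ω), (∀ S, S.card = k → MeasurableSet (E S)) ∧ t = minProb μ k n E}

/-- The limit f(k) of f(n, k) as n tends to infinity. -/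
noncomputable def f (k : ℕ) : ℝ := limUnder atTop (fun n => fnk n k)

/-! Basic properties -/

lemma exists_pair {k n : ℕ} (h : k + 1 ≤ n) :
    Nonempty {P : Finset (Fin n) × Finset (Fin n) // IsShiftPair k n P} :=
  ⟨⟨(_, _), Fin.castLE h, Fin.strictMono_castLE h, rfl, rfl⟩⟩

lemma bdd {Ω : Type} [MeasurableSpace Ω] (μ : Measure Ω) (k n : ℕ) (E : Finset (Fin n) → Set Ω) :
    BddBelow (Set.range fun P : {P : Finset (Fin n) × Finset (Fin n) // IsShiftPair k n P} =>
      μ.real (E P.1.1 ∩ (E P.1.2)ᶜ)) := by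
  refine ⟨0, ?_⟩
  rintro _ ⟨P, rfl⟩
  exact measureReal_nonneg

lemma minProb_le_one {Ω : Type} [MeasurableSpace Ω] (μ : Measure Ω) [IsProbabilityMeasure μ]
    {k n : ℕ} (h : k + 1 ≤ n) (E : Finset (Fin n) → Set Ω) : minProb μ k n E ≤ 1 := by
  obtain ⟨P⟩ := exists_pair h
  exact le_trans (ciInf_le (bdd μ k n E) P) measureReal_le_one

lemma minProb_nonneg {Ω : Type} [MeasurableSpace Ω] (μ : Measure Ω)
    (k n : ℕ) (E : Finset (Fin n) → Set Ω) : 0 ≤ minProb μ k n E :=
  Real.iInf_nonneg (fun _ => measureReal_nonneg)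

lemma bddAbove_set {n k : ℕ} (h : k + 1 ≤ n) :
    BddAbove {t : ℝ | ∃ (Ω : Type) (_ : MeasurableSpace Ω) (μ : Measure Ω) (_ : IsProbabilityMeasure μ)
    (E : Finset (Fin n) → Set Ω), (∀ S, S.card = k → MeasurableSet (E S)) ∧ t = minProb μ k n E} := by
  refine ⟨1, ?_⟩
  rintro t ⟨Ω, _, μ, _, E, -, rfl⟩
  exact minProb_le_one μ h E

lemma nonempty_set (n k : ℕ) :
    {t : ℝ | ∃ (Ω : Type) (_ : MeasurableSpace Ω) (μ : Measure Ω) (_ : IsProbabilityMeasure μ)
    (E : Finset (Fin n) → Set Ω), (∀ S, S.card = k → MeasurableSet (E S)) ∧ t = minProb μ k n E}.Nonempty :=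
  ⟨_, Unit, inferInstance, Measure.dirac (), inferInstance, fun _ => ∅, fun _ _ => MeasurableSet.empty, rfl⟩

lemma le_fnk {n k : ℕ} (h : k + 1 ≤ n) {Ω : Type} [MeasurableSpace Ω] (μ : Measure Ω)
    [IsProbabilityMeasure μ] (E : Finset (Fin n) → Set Ω) (hE : ∀ S, S.card = k → MeasurableSet (E S)) :
    minProb μ k n E ≤ fnk n k :=
  le_csSup (bddAbove_set h) ⟨Ω, inferInstance, μ, inferInstance, E, hE, rfl⟩

lemma fnk_nonneg (n k : ℕ) : 0 ≤ fnk n k := by
  apply Real.sSup_nonneg
  rintro t ⟨Ω, _, μ, _, E, -, rfl⟩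
  exact minProb_nonneg μ k n E

lemma fnk_succ_le {n k : ℕ} (h : k + 1 ≤ n) : fnk (n + 1) k ≤ fnk n k := by
  apply csSup_le (nonempty_set _ _)
  rintro t ⟨Ω, _, μ, _, E, hE, rfl⟩
  have hE' : ∀ S : Finset (Fin n), S.card = k →
      MeasurableSet ((fun S : Finset (Fin n) => E (S.map Fin.castSuccEmb)) S) := by
    intro S hS
    exact hE _ (by rw [Finset.card_map]; exact hS)
  refine le_trans ?_ (le_fnk h μ (fun S : Finset (Fin n) => E (S.map Fin.castSuccEmb)) hE')
  have := exists_pair h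
  apply le_ciInf
  rintro ⟨⟨A, B⟩, i, hi, hA, hB⟩
  have hP : IsShiftPair k (n + 1) (A.map Fin.castSuccEmb, B.map Fin.castSuccEmb) := by
    refine ⟨fun j => (i j).castSucc, ?_, ?_, ?_⟩
    · intro x y hxy
      exact Fin.castSucc_lt_castSucc_iff.mpr (hi hxy)
    · ext x
      simp only at hA
      simp [hA]
    · ext x
      simp only at hB
      simp [hB]
  exact ciInf_le (bdd μ k (n + 1) E) ⟨_, hP⟩

lemma tendsto_f (k : ℕ) : Tendsto (fun n => fnk n k) atTop (𝓝 (f k)) := by
  have hanti : Antitone (fun n => fnk (n + (k + 1)) k) := by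
    apply antitone_nat_of_succ_le
    intro n
    have := fnk_succ_le (n := n + (k + 1)) (k := k) (by omega)
    have e : n + 1 + (k + 1) = n + (k + 1) + 1 := by ring
    rw [e]; exact this
  have hb : BddBelow (Set.range (fun n => fnk (n + (k + 1)) k)) :=
    ⟨0, by rintro _ ⟨n, rfl⟩; exact fnk_nonneg _ _⟩
  have h1 := tendsto_atTop_ciInf hanti hb
  have h2 : Tendsto (fun n => fnk n k) atTop (𝓝 (⨅ n, fnk (n + (k + 1)) k)) :=
    (tendsto_add_atTop_iff_nat (k + 1)).mp h1
  unfold f
  rw [h2.limUnder_eq]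
  exact h2

end

section

open MeasureTheory ProbabilityTheory Filter Topology

/-! Limits along an ultrafilter -/

noncomputable def ulim (g : ℕ → ℝ) : ℝ := limUnder (hyperfilter ℕ : Filter ℕ) g

lemma ulim_spec {g : ℕ → ℝ} {C : ℝ} (h0 : ∀ i, 0 ≤ g i) (h1 : ∀ i, g i ≤ C) :
    Tendsto g (hyperfilter ℕ : Filter ℕ) (𝓝 (ulim g)) := by
  apply tendsto_nhds_limUnder
  have hK : IsCompact (Set.Icc (0 : ℝ) C) := isCompact_Icc
  have := hK.ultrafilter_le_nhds ((hyperfilter ℕ).map g) (by
    rw [Ultrafilter.coe_map]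
    exact le_principal_iff.mpr (Filter.mem_map.mpr (Filter.univ_mem' (fun i => ⟨h0 i, h1 i⟩))))
  obtain ⟨x, -, hx⟩ := this
  exact ⟨x, hx⟩

lemma ulim_eq {g : ℕ → ℝ} {l : ℝ} (h : Tendsto g (hyperfilter ℕ : Filter ℕ) (𝓝 l)) : ulim g = l :=
  h.limUnder_eq

lemma ulim_const (c : ℝ) : ulim (fun _ => c) = c := ulim_eq tendsto_const_nhds

lemma ulim_nonneg {g : ℕ → ℝ} {C : ℝ} (h0 : ∀ i, 0 ≤ g i) (h1 : ∀ i, g i ≤ C) : 0 ≤ ulim g :=
  ge_of_tendsto (ulim_spec h0 h1) (Filter.Eventually.of_forall h0)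

lemma ulim_le {g : ℕ → ℝ} {C : ℝ} (h0 : ∀ i, 0 ≤ g i) (h1 : ∀ i, g i ≤ C) : ulim g ≤ C :=
  le_of_tendsto (ulim_spec h0 h1) (Filter.Eventually.of_forall h1)

lemma ulim_ge {g : ℕ → ℝ} {C c : ℝ} (h0 : ∀ i, 0 ≤ g i) (h1 : ∀ i, g i ≤ C) (b : ℕ)
    (h : ∀ i, b < i → c ≤ g i) : c ≤ ulim g := by
  apply ge_of_tendsto (ulim_spec h0 h1)
  have : ∀ᶠ i in atTop, b < i := eventually_gt_atTop b
  exact (Filter.Eventually.filter_mono Nat.hyperfilter_le_atTop this).mono h

lemma ulim_sum {ι : Type} (s : Finset ι) {g : ι → ℕ → ℝ} {C : ℝ} (h0 : ∀ p i, 0 ≤ g p i)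
    (h1 : ∀ p i, g p i ≤ C) : ulim (fun i => ∑ p ∈ s, g p i) = ∑ p ∈ s, ulim (g p) :=
  ulim_eq (tendsto_finsetSum s (fun p _ => ulim_spec (h0 p) (h1 p)))

/-- Iterated limits. -/
noncomputable def itLim : (N : ℕ) → ((Fin N → ℕ) → ℝ) → ℝ
  | 0, g => g Fin.elim0
  | N + 1, g => ulim (fun i => itLim N (fun v => g (Fin.cons i v)))

lemma itLim_bd (N : ℕ) : ∀ {g : (Fin N → ℕ) → ℝ} {C : ℝ}, (∀ v, 0 ≤ g v) → (∀ v, g v ≤ C) →
    0 ≤ itLim N g ∧ itLim N g ≤ C := by
  induction N with
  | zero => intro g C h0 h1; exact ⟨h0 _, h1 _⟩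
  | succ N ih =>
    intro g C h0 h1
    have h2 : ∀ i, 0 ≤ itLim N (fun v => g (Fin.cons i v)) ∧ itLim N (fun v => g (Fin.cons i v)) ≤ C :=
      fun i => ih (fun v => h0 _) (fun v => h1 _)
    exact ⟨ulim_nonneg (fun i => (h2 i).1) (fun i => (h2 i).2), ulim_le (fun i => (h2 i).1) (fun i => (h2 i).2)⟩

lemma itLim_sum (N : ℕ) {ι : Type} (s : Finset ι) : ∀ {g : ι → (Fin N → ℕ) → ℝ} {C : ℝ},
    (∀ p v, 0 ≤ g p v) → (∀ p v, g p v ≤ C) →
    itLim N (fun v => ∑ p ∈ s, g p v) = ∑ p ∈ s, itLim N (g p) := by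
  induction N with
  | zero => intro g C _ _; rfl
  | succ N ih =>
    intro g C h0 h1
    have h2 : ∀ p i, 0 ≤ itLim N (fun v => g p (Fin.cons i v)) ∧ itLim N (fun v => g p (Fin.cons i v)) ≤ C :=
      fun p i => itLim_bd N (fun v => h0 _ _) (fun v => h1 _ _)
    show ulim (fun i => itLim N (fun v => ∑ p ∈ s, g p (Fin.cons i v))) = _
    have h3 : ∀ i, itLim N (fun v => ∑ p ∈ s, g p (Fin.cons i v)) = ∑ p ∈ s, itLim N (fun v => g p (Fin.cons i v)) :=
      fun i => ih (g := fun p v => g p (Fin.cons i v)) (fun p v => h0 _ _) (fun p v => h1 _ _)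
    simp only [h3]
    rw [ulim_sum s (fun p i => (h2 p i).1) (fun p i => (h2 p i).2)]
    rfl

lemma itLim_const (N : ℕ) (c : ℝ) : itLim N (fun _ => c) = c := by
  induction N with
  | zero => rfl
  | succ N ih =>
    show ulim (fun i => itLim N (fun _ => c)) = c
    simp only [ih]
    exact ulim_const c

lemma itLim_ge (N : ℕ) : ∀ {g : (Fin N → ℕ) → ℝ} {C c : ℝ} (b : ℕ), (∀ v, 0 ≤ g v) → (∀ v, g v ≤ C) →
    (∀ v, StrictMono v → (∀ t, b < v t) → c ≤ g v) → c ≤ itLim N g := by
  induction N with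
  | zero =>
    intro g C c b _ _ h
    exact h _ (fun i => i.elim0) (fun i => i.elim0)
  | succ N ih =>
    intro g C c b h0 h1 h
    have h2 : ∀ i, 0 ≤ itLim N (fun v => g (Fin.cons i v)) ∧ itLim N (fun v => g (Fin.cons i v)) ≤ C :=
      fun i => itLim_bd N (fun v => h0 _) (fun v => h1 _)
    apply ulim_ge (fun i => (h2 i).1) (fun i => (h2 i).2) b
    intro i hi
    apply ih i (fun v => h0 _) (fun v => h1 _)
    intro v hv hvi
    apply h
    · intro x y hxy
      induction x using Fin.cases with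
      | zero =>
        induction y using Fin.cases with
        | zero => exact absurd hxy (lt_irrefl _)
        | succ y => simpa using hvi y
      | succ x =>
        induction y using Fin.cases with
        | zero => exact absurd hxy (Fin.not_lt_zero _)
        | succ y => simpa using hv (Fin.succ_lt_succ_iff.mp hxy)
    · intro t
      induction t using Fin.cases with
      | zero => simpa using hi
      | succ t => simpa using lt_trans hi (hvi t)

lemma itLim_comp (N : ℕ) : ∀ (M : ℕ) (φ : Fin M → Fin N), StrictMono φ → ∀ (g : (Fin M → ℕ) → ℝ),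
    itLim N (fun v => g (v ∘ φ)) = itLim M g := by
  induction N with
  | zero =>
    intro M φ hφ g
    have hM : M = 0 := by
      rcases Nat.eq_zero_or_pos M with h | h
      · exact h
      · exact (φ ⟨0, h⟩).elim0
    subst hM
    have h1 : (Fin.elim0 : Fin 0 → ℕ) ∘ φ = Fin.elim0 := Subsingleton.elim _ _
    show g ((Fin.elim0 : Fin 0 → ℕ) ∘ φ) = g Fin.elim0
    rw [h1]
  | succ N ih =>
    intro M φ hφ g
    cases M with
    | zero =>
      have h1 : (fun v : Fin (N + 1) → ℕ => g (v ∘ φ)) = fun _ => g Fin.elim0 := by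
        funext v
        congr 1
        exact Subsingleton.elim _ _
      rw [h1, itLim_const]
      rfl
    | succ M =>
      by_cases h0 : φ 0 = 0
      · have hne : ∀ t : Fin M, φ t.succ ≠ 0 := by
          intro t
          have := hφ (Fin.succ_pos t)
          rw [h0] at this
          exact this.ne'
        let φ' : Fin M → Fin N := fun t => (φ t.succ).pred (hne t)
        have hφ' : StrictMono φ' := by
          intro x y hxy
          simp only [φ', Fin.pred_lt_pred_iff]
          exact hφ (Fin.succ_lt_succ_iff.mpr hxy)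
        have h2 : ∀ (i : ℕ) (v : Fin N → ℕ), (Fin.cons i v : Fin (N + 1) → ℕ) ∘ φ = Fin.cons i (v ∘ φ') := by
          intro i v
          funext t
          induction t using Fin.cases with
          | zero => simp [h0]
          | succ t =>
            have : φ t.succ = (φ' t).succ := by simp [φ']
            simp [this]
        show ulim (fun i => itLim N (fun v => g ((Fin.cons i v : Fin (N + 1) → ℕ) ∘ φ))) = ulim (fun i => itLim M (fun v => g (Fin.cons i v)))
        simp only [h2]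
        congr 1
        funext i
        exact ih M φ' hφ' (fun w => g (Fin.cons i w))
      · have hne : ∀ t : Fin (M + 1), φ t ≠ 0 := by
          intro t
          have h1 : φ 0 ≤ φ t := hφ.monotone (Fin.zero_le t)
          have h2 : 0 < φ 0 := Fin.pos_iff_ne_zero.mpr h0
          exact (lt_of_lt_of_le h2 h1).ne'
        let φ' : Fin (M + 1) → Fin N := fun t => (φ t).pred (hne t)
        have hφ' : StrictMono φ' := by
          intro x y hxy
          simp only [φ', Fin.pred_lt_pred_iff]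
          exact hφ hxy
        have h2 : ∀ (i : ℕ) (v : Fin N → ℕ), (Fin.cons i v : Fin (N + 1) → ℕ) ∘ φ = v ∘ φ' := by
          intro i v
          funext t
          have : φ t = (φ' t).succ := by simp [φ']
          simp [this]
        show ulim (fun i => itLim N (fun v => g ((Fin.cons i v : Fin (N + 1) → ℕ) ∘ φ))) = _
        simp only [h2]
        rw [ih (M + 1) φ' hφ' g]
        exact ulim_const _

/-! Patterns -/

abbrev Pat (N : ℕ) : Type := Finset (Fin N) → Bool

def res {a b : ℕ} (φ : Fin a → Fin b) (x : Pat b) : Pat a := fun T => x (T.image φ)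

lemma res_res {a b c : ℕ} (φ : Fin a → Fin b) (ψ : Fin b → Fin c) (x : Pat c) :
    res φ (res ψ x) = res (ψ ∘ φ) x := by
  funext T
  simp only [res, Finset.image_image]

/-- A consistent spreadable family of laws. -/
structure Sys where
  w : ∀ N, Pat N → ℝ
  nn : ∀ N x, 0 ≤ w N x
  one : ∀ N, ∑ x, w N x = 1
  push : ∀ {a b : ℕ} (φ : Fin a → Fin b), StrictMono φ → ∀ F : Pat a → ℝ,
    ∑ x, w b x * F (res φ x) = ∑ y, w a y * F y

/-- Existence of a system from raw data. -/
lemma sys_exists (P : ∀ N, (Fin N → ℕ) → Pat N → ℝ) (h0 : ∀ N v p, 0 ≤ P N v p)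
    (h1 : ∀ N v, ∑ p, P N v p = 1)
    (h2 : ∀ {a b : ℕ} (φ : Fin a → Fin b) (v : Fin b → ℕ) (q : Pat a),
      ∑ p ∈ Finset.univ.filter (fun p => res φ p = q), P b v p = P a (v ∘ φ) q)
    (m : ℕ) (c : ℝ) (s : Finset (Pat m)) (h3 : ∀ v : Fin m → ℕ, StrictMono v → c ≤ ∑ p ∈ s, P m v p) :
    ∃ S : Sys, c ≤ ∑ p ∈ s, S.w m p := by
  have hle : ∀ N v p, P N v p ≤ 1 := by
    intro N v p
    rw [← h1 N v]
    exact Finset.single_le_sum (fun q _ => h0 N v q) (Finset.mem_univ p)
  let w : ∀ N, Pat N → ℝ := fun N p => itLim N (fun v => P N v p)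
  have hw : ∀ N (t : Finset (Pat N)), ∑ p ∈ t, w N p = itLim N (fun v => ∑ p ∈ t, P N v p) := by
    intro N t
    rw [itLim_sum N t (g := fun p v => P N v p) (fun p v => h0 N v p) (fun p v => hle N v p)]
  refine ⟨⟨w, ?_, ?_, ?_⟩, ?_⟩
  · intro N x
    exact (itLim_bd N (fun v => h0 N v x) (fun v => hle N v x)).1
  · intro N
    rw [hw]
    simp only [h1]
    exact itLim_const N 1
  · intro a b φ hφ F
    have h4 : ∀ q : Pat a, ∑ p ∈ Finset.univ.filter (fun p => res φ p = q), w b p = w a q := by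
      intro q
      rw [hw]
      simp only [h2]
      exact itLim_comp b a φ hφ (fun v => P a v q)
    have h5 : ∑ x, w b x * F (res φ x) = ∑ q : Pat a, ∑ x ∈ Finset.univ.filter (fun p => res φ p = q), w b x * F (res φ x) :=
      (Finset.sum_fiberwise Finset.univ (fun x => res φ x) _).symm
    rw [h5]
    apply Finset.sum_congr rfl
    intro q _
    rw [← h4 q, Finset.sum_mul]
    apply Finset.sum_congr rfl
    intro x hx
    rw [(Finset.mem_filter.mp hx).2]
  · show c ≤ ∑ p ∈ s, w m p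
    rw [hw]
    apply itLim_ge m (C := 1) 0
    · intro v
      exact Finset.sum_nonneg (fun p _ => h0 m v p)
    · intro v
      rw [← h1 m v]
      exact Finset.sum_le_sum_of_subset_of_nonneg (Finset.subset_univ s) (fun p _ _ => h0 m v p)
    · intro v hv _
      exact h3 v hv

end

section

open MeasureTheory ProbabilityTheory Filter Topology

lemma fin_sum_real {X : Type} [Fintype X] [MeasurableSpace X] [MeasurableSingletonClass X] (μ : Measure X)
    [IsProbabilityMeasure μ] : ∑ p : X, μ.real {p} = 1 := by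
  have h := sum_measureReal_singleton (μ := μ) (Finset.univ : Finset X)
  rw [h]
  simp

open Classical in
lemma exists_raw (k : ℕ) (c : ℝ) (H : ∀ n, k + 1 ≤ n → c < fnk n k) :
    ∃ S : Sys, c ≤ ∑ p ∈ Finset.univ.filter (fun p : Pat (k + 1) =>
      p (Finset.univ.image (fun j : Fin k => j.castSucc)) = true ∧
      p (Finset.univ.image (fun j : Fin k => j.succ)) = false), S.w (k + 1) p := by
  have H' : ∀ n, ∃ (Ω : Type) (_ : MeasurableSpace Ω) (μ : Measure Ω) (_ : IsProbabilityMeasure μ)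
      (E : Finset (Fin n) → Set Ω), (∀ S, S.card = k → MeasurableSet (E S)) ∧
        (k + 1 ≤ n → c ≤ minProb μ k n E) := by
    intro n
    by_cases hn : k + 1 ≤ n
    · obtain ⟨t, ⟨Ω, mΩ, μ, hμ, E, hE, ht⟩, hct⟩ := exists_lt_of_lt_csSup (nonempty_set n k) (H n hn)
      exact ⟨Ω, mΩ, μ, hμ, E, hE, fun _ => by rw [← ht]; exact hct.le⟩
    · exact ⟨Unit, inferInstance, Measure.dirac (), inferInstance, fun _ => ∅, fun _ _ => MeasurableSet.empty,
        fun h => absurd h hn⟩
  choose Ω mΩ μ hμ E hE hc using H'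
  -- patterns
  let F : ∀ n, Finset ℕ → Finset (Fin n) := fun n S => Finset.univ.filter (fun i : Fin n => (i : ℕ) ∈ S)
  let pat : ∀ n, Ω n → Finset ℕ → Bool := fun n ω S => decide ((F n S).card = k ∧ ω ∈ E n (F n S))
  let Pv : ∀ n N, (Fin N → ℕ) → Ω n → Pat N := fun n N v ω T => pat n ω (T.image v)
  have hpat : ∀ n S, MeasurableSet {ω | pat n ω S = true} := by
    intro n S
    by_cases h : (F n S).card = k
    · have : {ω | pat n ω S = true} = E n (F n S) := by
        ext ω
        simp [pat, h]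
      rw [this]
      exact hE n _ h
    · have : {ω | pat n ω S = true} = ∅ := by
        ext ω
        simp [pat, h]
      rw [this]
      exact MeasurableSet.empty
  have hPv : ∀ n N v, Measurable (Pv n N v) := by
    intro n N v
    apply measurable_pi_lambda
    intro T
    apply measurable_to_bool
    exact hpat n (T.image v)
  let W : ∀ n N, (Fin N → ℕ) → Pat N → ℝ := fun n N v p => ((μ n).map (Pv n N v)).real {p}
  have hprob : ∀ n N v, IsProbabilityMeasure ((μ n).map (Pv n N v)) := by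
    intro n N v
    exact Measure.isProbabilityMeasure_map (hPv n N v).aemeasurable
  have W0 : ∀ n N v p, 0 ≤ W n N v p := fun n N v p => measureReal_nonneg
  have W1 : ∀ n N v, ∑ p, W n N v p = 1 := by
    intro n N v
    have := hprob n N v
    exact fin_sum_real _
  have Wle : ∀ n N v p, W n N v p ≤ 1 := by
    intro n N v p
    rw [← W1 n N v]
    exact Finset.single_le_sum (fun q _ => W0 n N v q) (Finset.mem_univ p)
  have W2 : ∀ n {a b : ℕ} (φ : Fin a → Fin b) (v : Fin b → ℕ) (q : Pat a),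
      ∑ p ∈ Finset.univ.filter (fun p => res φ p = q), W n b v p = W n a (v ∘ φ) q := by
    intro n a b φ v q
    have := hprob n b v
    have h1 : ∑ p ∈ Finset.univ.filter (fun p => res φ p = q), W n b v p =
        ((μ n).map (Pv n b v)).real ((Finset.univ.filter (fun p => res φ p = q) : Finset (Pat b)) : Set (Pat b)) :=
      sum_measureReal_singleton _
    rw [h1]
    have h2 : ((Finset.univ.filter (fun p => res φ p = q) : Finset (Pat b)) : Set (Pat b)) = (res φ) ⁻¹' {q} := by
      ext x; simp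
    have hm : Measurable (res φ : Pat b → Pat a) := measurable_of_finite _
    rw [h2, ← map_measureReal_apply hm (MeasurableSet.singleton q), Measure.map_map hm (hPv n b v)]
    have h3 : (res φ) ∘ (Pv n b v) = Pv n a (v ∘ φ) := by
      funext ω T
      simp only [Function.comp, res, Pv, Finset.image_image]
    rw [h3]
  obtain ⟨S, hS⟩ := sys_exists (fun N v p => ulim (fun n => W n N v p))
    (fun N v p => ulim_nonneg (fun n => W0 n N v p) (fun n => Wle n N v p))
    (by
      intro N v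
      rw [← ulim_sum Finset.univ (g := fun p n => W n N v p) (fun p n => W0 n N v p) (fun p n => Wle n N v p)]
      simp only [W1]
      exact ulim_const 1)
    (by
      intro a b φ v q
      rw [← ulim_sum _ (g := fun p n => W n b v p) (fun p n => W0 n b v p) (fun p n => Wle n b v p)]
      simp only [W2])
    (k + 1) c (Finset.univ.filter (fun p : Pat (k + 1) =>
      p (Finset.univ.image (fun j : Fin k => j.castSucc)) = true ∧
      p (Finset.univ.image (fun j : Fin k => j.succ)) = false))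
    (by
      intro v hv
      rw [← ulim_sum _ (g := fun p n => W n (k + 1) v p) (fun p n => W0 n (k + 1) v p) (fun p n => Wle n (k + 1) v p)]
      apply ulim_ge (C := 1) _ _ (v (Fin.last k))
      · intro n hn
        have hvn : ∀ t, v t < n := fun t => lt_of_le_of_lt (hv.monotone (Fin.le_last t)) hn
        have hkn : k + 1 ≤ n := by
          have := Fintype.card_le_of_injective (fun t : Fin (k + 1) => (⟨v t, hvn t⟩ : Fin n)) (by
            intro x y hxy
            exact hv.injective (by simpa using hxy))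
          simpa using this
        have := hprob n (k + 1) v
        rw [show (∑ p ∈ (Finset.univ.filter (fun p : Pat (k + 1) =>
            p (Finset.univ.image (fun j : Fin k => j.castSucc)) = true ∧
            p (Finset.univ.image (fun j : Fin k => j.succ)) = false)), W n (k + 1) v p) =
            ((μ n).map (Pv n (k + 1) v)).real ((Finset.univ.filter (fun p : Pat (k + 1) =>
            p (Finset.univ.image (fun j : Fin k => j.castSucc)) = true ∧
            p (Finset.univ.image (fun j : Fin k => j.succ)) = false) : Finset (Pat (k + 1))) : Set (Pat (k + 1)))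
            from sum_measureReal_singleton _]
        rw [map_measureReal_apply (hPv n (k + 1) v) (Finset.measurableSet _)]
        refine le_trans (hc n hkn) ?_
        have hpair : IsShiftPair k n
            (Finset.univ.image (fun j : Fin k => (⟨v j.castSucc, hvn _⟩ : Fin n)),
             Finset.univ.image (fun j : Fin k => (⟨v j.succ, hvn _⟩ : Fin n))) :=
          ⟨fun t => ⟨v t, hvn t⟩, fun x y hxy => hv hxy, rfl, rfl⟩
        have hF : ∀ u : Fin k → Fin (k + 1), F n ((Finset.univ.image u).image v) =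
            Finset.univ.image (fun j : Fin k => (⟨v (u j), hvn _⟩ : Fin n)) := by
          intro u
          ext i
          simp only [F, Finset.mem_filter, Finset.mem_univ, true_and, Finset.mem_image, exists_exists_eq_and]
          constructor
          · rintro ⟨j, hj⟩
            exact ⟨j, Fin.ext hj⟩
          · rintro ⟨j, hj⟩
            exact ⟨j, by rw [← hj]⟩
        have hcard : ∀ u : Fin k → Fin (k + 1), Function.Injective u →
            (F n ((Finset.univ.image u).image v)).card = k := by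
          intro u hu
          rw [hF u, Finset.card_image_of_injective]
          · simp
          · intro x y hxy
            apply hu
            apply hv.injective
            simpa using hxy
        have hset : (Pv n (k + 1) v) ⁻¹' ((Finset.univ.filter (fun p : Pat (k + 1) =>
            p (Finset.univ.image (fun j : Fin k => j.castSucc)) = true ∧
            p (Finset.univ.image (fun j : Fin k => j.succ)) = false) : Finset (Pat (k + 1))) : Set (Pat (k + 1))) =
            E n (Finset.univ.image (fun j : Fin k => (⟨v j.castSucc, hvn _⟩ : Fin n))) ∩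
            (E n (Finset.univ.image (fun j : Fin k => (⟨v j.succ, hvn _⟩ : Fin n))))ᶜ := by
          ext ω
          have e1 := hcard (fun j : Fin k => j.castSucc) (Fin.castSucc_injective k)
          have e2 := hcard (fun j : Fin k => j.succ) (Fin.succ_injective k)
          have e3 := hF (fun j : Fin k => j.castSucc)
          have e4 := hF (fun j : Fin k => j.succ)
          simp only [Set.mem_preimage, Finset.coe_filter, Finset.mem_univ, true_and, Set.mem_ofPred_eq, Pv, pat,
            Set.mem_inter_iff, Set.mem_compl_iff, decide_eq_true_eq, decide_eq_false_iff_not, e1, e2]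
          rw [← e3, ← e4]
        rw [hset]
        exact ciInf_le (bdd (μ n) k n (E n)) ⟨_, hpair⟩
      · intro n
        exact Finset.sum_nonneg (fun p _ => W0 n (k + 1) v p)
      · intro n
        rw [← W1 n (k + 1) v]
        exact Finset.sum_le_sum_of_subset_of_nonneg (Finset.subset_univ _) (fun p _ _ => W0 n (k + 1) v p))
  exact ⟨S, hS⟩

end

section

open Finset

/-- Finite conditional probabilities. -/
lemma kern_exists {X A K : Type} [Fintype X] [Fintype A] [DecidableEq A] [Fintype K] [DecidableEq K] [Nonempty A]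
    (w : X → ℝ) (hw : ∀ x, 0 ≤ w x) (z : X → A) (κ : X → K) :
    ∃ Kn : K → A → ℝ, (∀ c a, 0 ≤ Kn c a) ∧ (∀ c, ∑ a, Kn c a = 1) ∧
      ∀ a (F : X → ℝ), (∀ x y, κ x = κ y → F x = F y) →
        ∑ x, w x * (if z x = a then 1 else 0) * F x = ∑ x, w x * Kn (κ x) a * F x := by
  classical
  obtain ⟨a0⟩ := (inferInstance : Nonempty A)
  let P : K → ℝ := fun c => ∑ x ∈ univ.filter (fun x => κ x = c), w x
  let Q : K → A → ℝ := fun c a => ∑ x ∈ univ.filter (fun x => κ x = c), w x * (if z x = a then 1 else 0)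
  have hP : ∀ c, 0 ≤ P c := fun c => sum_nonneg (fun x _ => hw x)
  have hQ : ∀ c a, 0 ≤ Q c a := fun c a => sum_nonneg (fun x _ => mul_nonneg (hw x) (by split_ifs <;> norm_num))
  have hQP : ∀ c, ∑ a, Q c a = P c := by
    intro c
    simp only [Q, P]
    rw [sum_comm]
    apply sum_congr rfl
    intro x _
    rw [← mul_sum]
    simp
  refine ⟨fun c a => if P c = 0 then (if a = a0 then 1 else 0) else Q c a / P c, ?_, ?_, ?_⟩
  · intro c a
    dsimp only
    split_ifs
    · norm_num
    · norm_num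
    · exact div_nonneg (hQ c a) (hP c)
  · intro c
    dsimp only
    by_cases h : P c = 0
    · simp [h]
    · simp only [h, if_false]
      rw [← sum_div, hQP, div_self h]
  · intro a F hF
    rw [← sum_fiberwise univ κ (fun x => w x * (if z x = a then 1 else 0) * F x),
      ← sum_fiberwise univ κ (fun x => w x * (if P (κ x) = 0 then (if a = a0 then 1 else 0) else Q (κ x) a / P (κ x)) * F x)]
    apply sum_congr rfl
    intro c _
    by_cases hne : ∃ x, κ x = c
    · obtain ⟨x0, hx0⟩ := hne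
      have e1 : ∀ x ∈ univ.filter (fun x => κ x = c), w x * (if z x = a then 1 else 0) * F x =
          w x * (if z x = a then 1 else 0) * F x0 := by
        intro x hx
        rw [hF x x0 (by rw [(mem_filter.mp hx).2, hx0])]
      have e2 : ∀ x ∈ univ.filter (fun x => κ x = c),
          w x * (if P (κ x) = 0 then (if a = a0 then 1 else 0) else Q (κ x) a / P (κ x)) * F x =
          w x * (if P c = 0 then (if a = a0 then 1 else 0) else Q c a / P c) * F x0 := by
        intro x hx
        rw [hF x x0 (by rw [(mem_filter.mp hx).2, hx0]), (mem_filter.mp hx).2]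
      rw [sum_congr rfl e1, sum_congr rfl e2, ← sum_mul, ← sum_mul, ← sum_mul]
      congr 1
      change Q c a = P c * _
      by_cases h : P c = 0
      · rw [h, zero_mul]
        have h3 : ∀ x ∈ univ.filter (fun x => κ x = c), w x = 0 :=
          (sum_eq_zero_iff_of_nonneg (fun x _ => hw x)).mp h
        exact sum_eq_zero (fun x hx => by rw [h3 x hx, zero_mul])
      · simp only [h, if_false]
        field_simp
    · have : univ.filter (fun x => κ x = c) = ∅ := by
        apply filter_eq_empty_iff.mpr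
        intro x _ hx
        exact hne ⟨x, hx⟩
      rw [this]
      simp

/-- Marginalisation: unused coordinates may be replaced. -/
lemma marg {ι A : Type} [Fintype ι] [DecidableEq ι] [Fintype A] (R : ι → Prop) [DecidablePred R]
    (h : (ι → A) → ℝ) (hd : ∀ s s' : ι → A, (∀ i, R i → s i = s' i) → h s = h s')
    (k k' : ι → A → ℝ) (h1 : ∀ i, ∑ b, k i b = 1) (h1' : ∀ i, ∑ b, k' i b = 1)
    (hk : ∀ i, R i → k i = k' i) :
    ∑ s : ι → A, (∏ i, k i (s i)) * h s = ∑ s : ι → A, (∏ i, k' i (s i)) * h s := by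
  classical
  by_cases hA : Nonempty A
  swap
  · have hA' : IsEmpty A := not_nonempty_iff.mp hA
    by_cases hι : Nonempty ι
    · obtain ⟨i⟩ := hι
      have := h1 i
      simp at this
    · have : IsEmpty ι := not_nonempty_iff.mp hι
      simp
  obtain ⟨a0⟩ := hA
  have key : ∀ k : ι → A → ℝ, (∀ i, ∑ b, k i b = 1) →
      ∑ s : ι → A, (∏ i, k i (s i)) * h s =
      ∑ s1 : {i // R i} → A, (∏ i : {i // R i}, k i (s1 i)) * h (fun i => if hi : R i then s1 ⟨i, hi⟩ else a0) := by
    intro k hk1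
    let e := Equiv.piEquivPiSubtypeProd R (fun _ : ι => A)
    rw [← Equiv.sum_comp e.symm, Fintype.sum_prod_type]
    apply sum_congr rfl
    intro s1 _
    have h2 : ∀ s2 : {i // ¬ R i} → A, (∏ i, k i (e.symm (s1, s2) i)) * h (e.symm (s1, s2)) =
        (∏ i : {i // R i}, k i (s1 i)) * h (fun i => if hi : R i then s1 ⟨i, hi⟩ else a0) *
          ∏ i : {i // ¬ R i}, k i (s2 i) := by
      intro s2
      have h3 : h (e.symm (s1, s2)) = h (fun i => if hi : R i then s1 ⟨i, hi⟩ else a0) := by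
        apply hd
        intro i hi
        simp [e, Equiv.piEquivPiSubtypeProd, hi]
      have h4 : (∏ i, k i (e.symm (s1, s2) i)) = (∏ i : {i // R i}, k i (s1 i)) * ∏ i : {i // ¬ R i}, k i (s2 i) := by
        rw [← Fintype.prod_subtype_mul_prod_subtype R (fun i => k i (e.symm (s1, s2) i))]
        congr 1
        · apply prod_congr rfl
          intro i _
          have := i.2
          simp [e, Equiv.piEquivPiSubtypeProd, this]
        · apply prod_congr rfl
          intro i _
          have := i.2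
          simp [e, Equiv.piEquivPiSubtypeProd, this]
      rw [h3, h4]
      ring
    simp only [h2]
    rw [← mul_sum]
    have h5 : ∑ s2 : {i // ¬ R i} → A, ∏ i : {i // ¬ R i}, k i (s2 i) = 1 := by
      have := (Fintype.prod_sum (fun (i : {i // ¬ R i}) (b : A) => k i b)).symm
      rw [this]
      simp [hk1]
    rw [h5, mul_one]
  rw [key k h1, key k' h1']
  apply sum_congr rfl
  intro s1 _
  congr 1
  apply prod_congr rfl
  intro i _
  rw [hk i i.2]

lemma prod_sum_one {ι A : Type} [Fintype ι] [DecidableEq ι] [Fintype A]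
    (k : ι → A → ℝ) (h1 : ∀ i, ∑ b, k i b = 1) : ∑ s : ι → A, ∏ i, k i (s i) = 1 := by
  have := (Fintype.prod_sum (fun (i : ι) (b : A) => k i b)).symm
  rw [this]
  simp [h1]

/-- Rotation-invariant laws. -/
structure RotInv {k : ℕ} {A : Type} [Fintype A] (l : (Fin (k + 1) → A) → ℝ) : Prop where
  nn : ∀ s, 0 ≤ l s
  one : ∑ s, l s = 1
  rot : ∀ s, l (fun i => s (i + 1)) = l s

/-- Applying a kernel to consecutive pairs. -/
noncomputable def app {k : ℕ} {A B : Type} [Fintype B] (Kn : B × B → A → ℝ)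
    (s' : Fin (k + 1) → B) (s : Fin (k + 1) → A) : ℝ := ∏ i, Kn (s' i, s' (i + 1)) (s i)

def rotE (k : ℕ) (A : Type) : (Fin (k + 1) → A) ≃ (Fin (k + 1) → A) where
  toFun s := fun i => s (i + 1)
  invFun s := fun i => s (i - 1)
  left_inv s := by funext i; simp
  right_inv s := by funext i; simp

lemma rotInv_app {k : ℕ} {A B : Type} [Fintype A] [DecidableEq A] [Fintype B] [DecidableEq B]
    (Kn : B × B → A → ℝ)
    (h0 : ∀ c a, 0 ≤ Kn c a) (h1 : ∀ c, ∑ a, Kn c a = 1)
    (l' : (Fin (k + 1) → B) → ℝ) (hl : RotInv l') :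
    RotInv (fun s : Fin (k + 1) → A => ∑ s', l' s' * app Kn s' s) := by
  refine ⟨?_, ?_, ?_⟩
  · intro s
    exact sum_nonneg (fun s' _ => mul_nonneg (hl.nn s') (prod_nonneg (fun i _ => h0 _ _)))
  · rw [sum_comm]
    have : ∀ s' : Fin (k + 1) → B, ∑ s : Fin (k + 1) → A, l' s' * app Kn s' s = l' s' := by
      intro s'
      rw [← mul_sum]
      unfold app
      rw [prod_sum_one (fun i b => Kn (s' i, s' (i + 1)) b) (fun i => h1 _), mul_one]
    simp only [this]
    exact hl.one
  · intro s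
    rw [← Equiv.sum_comp (rotE k B)]
    apply sum_congr rfl
    intro s' _
    have e1 : l' (rotE k B s') = l' s' := hl.rot s'
    rw [e1]
    congr 1
    unfold app
    have := Equiv.prod_comp (Equiv.addRight (1 : Fin (k + 1))) (fun i => Kn (s' i, s' (i + 1)) (s i))
    rw [← this]
    rfl

lemma sum_app {k : ℕ} {A B : Type} [Fintype A] [Fintype B] (Kn : B × B → A → ℝ)
    (l' : (Fin (k + 1) → B) → ℝ) (h : (Fin (k + 1) → A) → ℝ) :
    ∑ s, (∑ s', l' s' * app Kn s' s) * h s = ∑ s', l' s' * ∑ s, app Kn s' s * h s := by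
  simp only [sum_mul, mul_sum]
  rw [sum_comm]
  apply sum_congr rfl
  intro s' _
  apply sum_congr rfl
  intro s _
  ring

end

section

open Finset

/-- Piecewise shift on the natural numbers. -/
def pf (p q u v t : ℕ) : ℕ := if t < p then t else if t < q then t + u else t + v

def pm {a b : ℕ} (p q u v : ℕ) (h : ∀ t < a, pf p q u v t < b) : Fin a → Fin b :=
  fun t => ⟨pf p q u v t, h t t.2⟩

lemma pm_strictMono {a b : ℕ} (p q u v : ℕ) (h : ∀ t < a, pf p q u v t < b) (huv : u ≤ v) :
    StrictMono (pm p q u v h) := by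
  intro x y hxy
  have h1 : (x : ℕ) < y := hxy
  show (pf p q u v x) < pf p q u v y
  unfold pf
  split_ifs <;> omega

/-- The window of length j at position i, together with the m outer points on both sides. -/
def win (m j n i : ℕ) (h : i + j ≤ n) : Fin (2 * m + j) → Fin (2 * m + n) :=
  pm m (m + j) i (n - j) (by intro t ht; unfold pf; split_ifs <;> omega)

lemma win_mono (m j n i : ℕ) (h : i + j ≤ n) : StrictMono (win m j n i h) :=
  pm_strictMono _ _ _ _ _ (by omega)

/-- The window of length j at position i, together with the m outer points among m' on both sides. -/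
def bet (m m' j n i : ℕ) (hm : m ≤ m') (h : i + j ≤ n) : Fin (2 * m + j) → Fin (2 * m' + n) :=
  pm m (m + j) ((m' - m) + i) (2 * (m' - m) + (n - j)) (by intro t ht; unfold pf; split_ifs <;> omega)

lemma bet_mono (m m' j n i : ℕ) (hm : m ≤ m') (h : i + j ≤ n) : StrictMono (bet m m' j n i hm h) :=
  pm_strictMono _ _ _ _ _ (by omega)

/-- The absorbing map. -/
def psi (m m' j n i : ℕ) (hm : m + n ≤ m') (h : i + j ≤ n) : Fin (2 * m + n) → Fin (2 * m' + j) :=
  pm (m + i) (m + i + j) (m' - m - i) (2 * m' + j - (2 * m + n)) (by intro t ht; unfold pf; split_ifs <;> omega)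

lemma psi_mono (m m' j n i : ℕ) (hm : m + n ≤ m') (h : i + j ≤ n) : StrictMono (psi m m' j n i hm h) :=
  pm_strictMono _ _ _ _ _ (by omega)

lemma win_win (m j j' n i e : ℕ) (h : i + j' ≤ n) (he : e + j ≤ j') (h2 : i + e + j ≤ n) :
    win m j' n i h ∘ win m j j' e he = win m j n (i + e) h2 := by
  funext t
  have := t.2
  apply Fin.ext
  simp only [Function.comp, win, pm, pf]
  split_ifs <;> omega

lemma win_bet (m m' j n i : ℕ) (hm : m ≤ m') (h : i + j ≤ n) (h0 : 0 + j ≤ j) :
    win m' j n i h ∘ bet m m' j j 0 hm h0 = bet m m' j n i hm h := by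
  funext t
  have := t.2
  apply Fin.ext
  simp only [Function.comp, win, bet, pm, pf]
  split_ifs <;> omega

lemma psi_bet (m m' m'' j n i : ℕ) (hm : m ≤ m') (hm' : m' + n ≤ m'') (h : i + j ≤ n) (h0 : 0 + j ≤ j)
    (hm2 : m ≤ m'') :
    psi m' m'' j n i hm' h ∘ bet m m' j n i hm h = bet m m'' j j 0 hm2 h0 := by
  funext t
  have := t.2
  apply Fin.ext
  simp only [Function.comp, psi, bet, pm, pf]
  split_ifs <;> omega

/-- Points in the range of the left window. -/
lemma left_range (m j : ℕ) (h : 0 + j ≤ j + 1) (y : Fin (2 * m + (j + 1))) (hy : (y : ℕ) ≠ m + j) :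
    ∃ s, win m j (j + 1) 0 h s = y := by
  have := y.2
  by_cases h1 : (y : ℕ) < m + j
  · refine ⟨⟨y, by omega⟩, ?_⟩
    apply Fin.ext
    simp only [win, pm, pf]
    split_ifs <;> omega
  · refine ⟨⟨y - 1, by omega⟩, ?_⟩
    apply Fin.ext
    simp only [win, pm, pf]
    split_ifs <;> omega

lemma right_range (m j : ℕ) (h : 1 + j ≤ j + 1) (y : Fin (2 * m + (j + 1))) (hy : (y : ℕ) ≠ m) :
    ∃ s, win m j (j + 1) 1 h s = y := by
  have := y.2
  by_cases h1 : (y : ℕ) < m
  · refine ⟨⟨y, by omega⟩, ?_⟩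
    apply Fin.ext
    simp only [win, pm, pf]
    split_ifs <;> omega
  · refine ⟨⟨y - 1, by omega⟩, ?_⟩
    apply Fin.ext
    simp only [win, pm, pf]
    split_ifs <;> omega

lemma res_through {a b c : ℕ} (f : Fin a → Fin b) (g : Fin c → Fin b) (h : ∀ t, ∃ s, g s = f t)
    (x y : Pat b) (hxy : res g x = res g y) : res f x = res f y := by
  choose θ hθ using h
  have : f = g ∘ θ := by funext t; exact (hθ t).symm
  rw [this, ← res_res, ← res_res, hxy]

lemma throughB (m m' j n i i' : ℕ) (hm : m + n ≤ m') (h : i + (j + 1) ≤ n) (hi : i' ≤ i) (h' : i' + j ≤ n)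
    (x y : Pat (2 * m' + (j + 1))) (hxy : res (win m' j (j + 1) 0 (by omega)) x = res (win m' j (j + 1) 0 (by omega)) y) :
    res (win m j n i' h') (res (psi m m' (j + 1) n i hm h) x) =
    res (win m j n i' h') (res (psi m m' (j + 1) n i hm h) y) := by
  rw [res_res, res_res]
  refine res_through _ _ ?_ x y hxy
  intro t
  apply left_range
  have := t.2
  simp only [Function.comp, psi, win, pm, pf]
  split_ifs <;> omega

lemma throughC (m m' j n i i' : ℕ) (hm : m + n ≤ m') (h : i + (j + 1) ≤ n) (hi : i + 1 ≤ i') (h' : i' + j ≤ n)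
    (x y : Pat (2 * m' + (j + 1))) (hxy : res (win m' j (j + 1) 1 (by omega)) x = res (win m' j (j + 1) 1 (by omega)) y) :
    res (win m j n i' h') (res (psi m m' (j + 1) n i hm h) x) =
    res (win m j n i' h') (res (psi m m' (j + 1) n i hm h) y) := by
  rw [res_res, res_res]
  refine res_through _ _ ?_ x y hxy
  intro t
  apply right_range
  have := t.2
  simp only [Function.comp, psi, win, pm, pf]
  split_ifs <;> omega

lemma throughD (m₀ m m' j n i i' : ℕ) (hm0 : m₀ ≤ m) (hm : m + n ≤ m') (h : i + (j + 1) ≤ n) (hi : i + 1 ≤ i')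
    (h' : i' + (j + 1) ≤ n)
    (x y : Pat (2 * m' + (j + 1))) (hxy : res (win m' j (j + 1) 1 (by omega)) x = res (win m' j (j + 1) 1 (by omega)) y) :
    res (bet m₀ m (j + 1) n i' hm0 h') (res (psi m m' (j + 1) n i hm h) x) =
    res (bet m₀ m (j + 1) n i' hm0 h') (res (psi m m' (j + 1) n i hm h) y) := by
  rw [res_res, res_res]
  refine res_through _ _ ?_ x y hxy
  intro t
  apply right_range
  have := t.2
  simp only [Function.comp, psi, bet, pm, pf]
  split_ifs <;> omega

/-- The canonical pair of neighbouring windows. -/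
def kap (m j : ℕ) (x : Pat (2 * m + (j + 1))) : Pat (2 * m + j) × Pat (2 * m + j) :=
  (res (win m j (j + 1) 0 (by omega)) x, res (win m j (j + 1) 1 (by omega)) x)

/-- The kernel property. -/
structure IsKern (S : Sys) (m₀ m j : ℕ) (hm : m₀ ≤ m)
    (K : Pat (2 * m + j) × Pat (2 * m + j) → Pat (2 * m₀ + (j + 1)) → ℝ) : Prop where
  nn : ∀ c a, 0 ≤ K c a
  one : ∀ c, ∑ a, K c a = 1
  id : ∀ a (F : Pat (2 * m + (j + 1)) → ℝ), (∀ x y, kap m j x = kap m j y → F x = F y) →
    ∑ x, S.w _ x * (if res (bet m₀ m (j + 1) (j + 1) 0 hm (by omega)) x = a then 1 else 0) * F x =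
    ∑ x, S.w _ x * K (kap m j x) a * F x

lemma kern_ex (S : Sys) (m₀ m j : ℕ) (hm : m₀ ≤ m) : ∃ K, IsKern S m₀ m j hm K := by
  obtain ⟨K, h1, h2, h3⟩ := kern_exists (S.w (2 * m + (j + 1))) (S.nn _)
    (res (bet m₀ m (j + 1) (j + 1) 0 hm (by omega))) (kap m j)
  exact ⟨K, h1, h2, h3⟩

lemma IsKern.le_one {S : Sys} {m₀ m j : ℕ} {hm : m₀ ≤ m}
    {K : Pat (2 * m + j) × Pat (2 * m + j) → Pat (2 * m₀ + (j + 1)) → ℝ} (hK : IsKern S m₀ m j hm K) (c) (a) :
    K c a ≤ 1 := by
  rw [← hK.one c]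
  exact single_le_sum (fun b _ => hK.nn c b) (mem_univ a)

noncomputable def en (S : Sys) (m₀ m j : ℕ)
    (K : Pat (2 * m + j) × Pat (2 * m + j) → Pat (2 * m₀ + (j + 1)) → ℝ) (a : Pat (2 * m₀ + (j + 1))) : ℝ :=
  ∑ x, S.w (2 * m + (j + 1)) x * (K (kap m j x) a) ^ 2

lemma cs {X : Type} [Fintype X] (w f g : X → ℝ) (hw : ∀ x, 0 ≤ w x) (h1 : ∑ x, w x = 1) (hg : ∀ x, g x ^ 2 ≤ 1) :
    (∑ x, w x * (f x * g x)) ^ 2 ≤ ∑ x, w x * f x ^ 2 := by
  have h := sum_mul_sq_le_sq_mul_sq univ (fun x => Real.sqrt (w x) * f x) (fun x => Real.sqrt (w x) * g x)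
  have e1 : ∀ x, Real.sqrt (w x) * f x * (Real.sqrt (w x) * g x) = w x * (f x * g x) := by
    intro x
    have := Real.mul_self_sqrt (hw x)
    calc Real.sqrt (w x) * f x * (Real.sqrt (w x) * g x) = (Real.sqrt (w x) * Real.sqrt (w x)) * (f x * g x) := by ring
      _ = _ := by rw [this]
  have e2 : ∀ x, (Real.sqrt (w x) * f x) ^ 2 = w x * f x ^ 2 := by
    intro x
    rw [mul_pow, Real.sq_sqrt (hw x)]
  have e3 : ∀ x, (Real.sqrt (w x) * g x) ^ 2 ≤ w x := by
    intro x
    rw [mul_pow, Real.sq_sqrt (hw x)]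
    have := mul_le_mul_of_nonneg_left (hg x) (hw x)
    simpa using this
  simp only [e1, e2] at h
  have h4 : ∑ x, (Real.sqrt (w x) * g x) ^ 2 ≤ 1 := by
    rw [← h1]
    exact sum_le_sum (fun x _ => e3 x)
  have h5 : 0 ≤ ∑ x, w x * f x ^ 2 := sum_nonneg (fun x _ => mul_nonneg (hw x) (sq_nonneg _))
  calc _ ≤ _ := h
    _ ≤ (∑ x, w x * f x ^ 2) * 1 := mul_le_mul_of_nonneg_left h4 h5
    _ = _ := mul_one _

/-- The gap estimate. -/
lemma gap (S : Sys) (m₀ m₁ m₂ j n i : ℕ) (h01 : m₀ ≤ m₁) (h12 : m₁ + n ≤ m₂) (h02 : m₀ ≤ m₂)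
    (hi : i + (j + 1) ≤ n) (hi0 : i + j ≤ n) (hi1 : (i + 1) + j ≤ n)
    (K₁ : Pat (2 * m₁ + j) × Pat (2 * m₁ + j) → Pat (2 * m₀ + (j + 1)) → ℝ) (hK₁ : IsKern S m₀ m₁ j h01 K₁)
    (K₂ : Pat (2 * m₂ + j) × Pat (2 * m₂ + j) → Pat (2 * m₀ + (j + 1)) → ℝ) (hK₂ : IsKern S m₀ m₂ j h02 K₂)
    (a : Pat (2 * m₀ + (j + 1))) (η : Pat (2 * m₁ + n) → ℝ) (hη : ∀ x, η x ^ 2 ≤ 1)
    (hη2 : ∀ x y, kap m₂ j x = kap m₂ j y →
      η (res (psi m₁ m₂ (j + 1) n i h12 hi) x) = η (res (psi m₁ m₂ (j + 1) n i h12 hi) y)) :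
    (∑ x, S.w (2 * m₁ + n) x * (((if res (bet m₀ m₁ (j + 1) n i h01 hi) x = a then 1 else 0) -
      K₁ (res (win m₁ j n i hi0) x, res (win m₁ j n (i + 1) hi1) x) a) * η x)) ^ 2 ≤
    en S m₀ m₂ j K₂ a - en S m₀ m₁ j K₁ a := by
  -- transport to the large space
  have hpush := S.push (psi m₁ m₂ (j + 1) n i h12 hi) (psi_mono _ _ _ _ _ _ _)
  have hZ : ∀ y : Pat (2 * m₂ + (j + 1)), res (bet m₀ m₁ (j + 1) n i h01 hi) (res (psi m₁ m₂ (j + 1) n i h12 hi) y) =
      res (bet m₀ m₂ (j + 1) (j + 1) 0 h02 (by omega)) y := by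
    intro y
    rw [res_res, psi_bet]
  let Kt : Pat (2 * m₁ + n) → ℝ := fun x => K₁ (res (win m₁ j n i hi0) x, res (win m₁ j n (i + 1) hi1) x) a
  have hKt : ∀ x y, kap m₂ j x = kap m₂ j y →
      Kt (res (psi m₁ m₂ (j + 1) n i h12 hi) x) = Kt (res (psi m₁ m₂ (j + 1) n i h12 hi) y) := by
    intro x y hxy
    simp only [kap, Prod.mk.injEq] at hxy
    simp only [Kt]
    rw [throughB m₁ m₂ j n i i h12 hi le_rfl hi0 x y hxy.1, throughC m₁ m₂ j n i (i + 1) h12 hi le_rfl hi1 x y hxy.2]
  -- transport to the small canonical space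
  have hpush2 := S.push (win m₁ (j + 1) n i hi) (win_mono _ _ _ _ _)
  have hZ2 : ∀ x : Pat (2 * m₁ + n), res (bet m₀ m₁ (j + 1) n i h01 hi) x =
      res (bet m₀ m₁ (j + 1) (j + 1) 0 h01 (by omega)) (res (win m₁ (j + 1) n i hi) x) := by
    intro x
    rw [res_res, win_bet]
  have hK2 : ∀ x : Pat (2 * m₁ + n), Kt x = K₁ (kap m₁ j (res (win m₁ (j + 1) n i hi) x)) a := by
    intro x
    simp only [Kt, kap, res_res]
    rw [win_win m₁ j (j + 1) n i 0 hi (by omega) (by omega), win_win m₁ j (j + 1) n i 1 hi (by omega) (by omega)]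
    rfl
  have hE1 : ∑ x, S.w (2 * m₁ + n) x * Kt x ^ 2 = en S m₀ m₁ j K₁ a := by
    simp only [hK2]
    exact hpush2 (fun u => K₁ (kap m₁ j u) a ^ 2)
  have hE2 : ∑ x, S.w (2 * m₁ + n) x * ((if res (bet m₀ m₁ (j + 1) n i h01 hi) x = a then 1 else 0) * Kt x) =
      en S m₀ m₁ j K₁ a := by
    simp only [hK2, hZ2]
    rw [hpush2 (fun u => (if res (bet m₀ m₁ (j + 1) (j + 1) 0 h01 (by omega)) u = a then 1 else 0) * K₁ (kap m₁ j u) a)]
    have := hK₁.id a (fun u => K₁ (kap m₁ j u) a) (fun x y hxy => by rw [hxy])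
    simp only [mul_assoc] at this
    rw [this]
    unfold en
    apply sum_congr rfl
    intro x _
    ring
  have hE3 : ∑ y, S.w (2 * m₂ + (j + 1)) y * Kt (res (psi m₁ m₂ (j + 1) n i h12 hi) y) ^ 2 = en S m₀ m₁ j K₁ a := by
    rw [← hE1]
    exact hpush (fun x => Kt x ^ 2)
  have hE4 : ∑ y, S.w (2 * m₂ + (j + 1)) y * (K₂ (kap m₂ j y) a * Kt (res (psi m₁ m₂ (j + 1) n i h12 hi) y)) =
      en S m₀ m₁ j K₁ a := by
    rw [← hE2, ← hpush (fun x => (if res (bet m₀ m₁ (j + 1) n i h01 hi) x = a then 1 else 0) * Kt x)]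
    have := hK₂.id a (fun y => Kt (res (psi m₁ m₂ (j + 1) n i h12 hi) y)) hKt
    simp only [mul_assoc] at this
    rw [← this]
    simp only [hZ]
  have hmain : ∑ x, S.w (2 * m₁ + n) x * (((if res (bet m₀ m₁ (j + 1) n i h01 hi) x = a then 1 else 0) -
      Kt x) * η x) = ∑ y, S.w (2 * m₂ + (j + 1)) y * ((K₂ (kap m₂ j y) a -
        Kt (res (psi m₁ m₂ (j + 1) n i h12 hi) y)) * η (res (psi m₁ m₂ (j + 1) n i h12 hi) y)) := by
    rw [← hpush (fun x => ((if res (bet m₀ m₁ (j + 1) n i h01 hi) x = a then 1 else 0) - Kt x) * η x)]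
    have := hK₂.id a (fun y => η (res (psi m₁ m₂ (j + 1) n i h12 hi) y)) hη2
    simp only [hZ]
    have e1 : ∀ y : Pat (2 * m₂ + (j + 1)), ∀ z : ℝ, S.w (2 * m₂ + (j + 1)) y * ((z -
        Kt (res (psi m₁ m₂ (j + 1) n i h12 hi) y)) * η (res (psi m₁ m₂ (j + 1) n i h12 hi) y)) =
        S.w (2 * m₂ + (j + 1)) y * z * η (res (psi m₁ m₂ (j + 1) n i h12 hi) y) -
        S.w (2 * m₂ + (j + 1)) y * (Kt (res (psi m₁ m₂ (j + 1) n i h12 hi) y) *
          η (res (psi m₁ m₂ (j + 1) n i h12 hi) y)) := by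
      intro y z; ring
    simp only [e1, sum_sub_distrib]
    rw [this]
  show (∑ x, S.w (2 * m₁ + n) x * (((if res (bet m₀ m₁ (j + 1) n i h01 hi) x = a then 1 else 0) -
      Kt x) * η x)) ^ 2 ≤ _
  rw [hmain]
  refine le_trans (cs (S.w (2 * m₂ + (j + 1))) _ _ (S.nn _) (S.one _) (fun y => hη _)) ?_
  have e2 : ∀ y : Pat (2 * m₂ + (j + 1)), S.w (2 * m₂ + (j + 1)) y * (K₂ (kap m₂ j y) a -
        Kt (res (psi m₁ m₂ (j + 1) n i h12 hi) y)) ^ 2 =
      S.w (2 * m₂ + (j + 1)) y * (K₂ (kap m₂ j y) a) ^ 2 -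
      2 * (S.w (2 * m₂ + (j + 1)) y * (K₂ (kap m₂ j y) a * Kt (res (psi m₁ m₂ (j + 1) n i h12 hi) y))) +
      S.w (2 * m₂ + (j + 1)) y * Kt (res (psi m₁ m₂ (j + 1) n i h12 hi) y) ^ 2 := by
    intro y; ring
  simp only [e2, sum_add_distrib, sum_sub_distrib, ← mul_sum]
  rw [hE3, hE4]
  have : ∑ y, S.w (2 * m₂ + (j + 1)) y * (K₂ (kap m₂ j y) a) ^ 2 = en S m₀ m₂ j K₂ a := rfl
  rw [this]
  linarith

end

section

open Finset

def XX (m j n : ℕ) (x : Pat (2 * m + n)) (i : Fin n) : Pat (2 * m + j) :=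
  if h : (i : ℕ) + j ≤ n then res (win m j n i h) x else fun _ => false

def ZZ (m m' j n : ℕ) (hm : m ≤ m') (x : Pat (2 * m' + n)) (i : Fin n) : Pat (2 * m + j) :=
  if h : (i : ℕ) + j ≤ n then res (bet m m' j n i hm h) x else fun _ => false

lemma bet_win (m m' j n i : ℕ) (hm : m ≤ m') (h : i + j ≤ n) (h0 : 0 + n ≤ n) :
    bet m m' n n 0 hm h0 ∘ win m j n i h = bet m m' j n i hm h := by
  funext t
  have := t.2
  apply Fin.ext
  simp only [Function.comp, win, bet, pm, pf]
  split_ifs <;> omega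

lemma win_zero (m n i i' : ℕ) (h : i + 0 ≤ n) (h' : i' + 0 ≤ n) : win m 0 n i h = win m 0 n i' h' := by
  funext t
  have := t.2
  apply Fin.ext
  simp only [win, pm, pf]
  split_ifs <;> omega

lemma win_congr (m j n i i' : ℕ) (h : i + j ≤ n) (h' : i' + j ≤ n) (e : i = i') : win m j n i h = win m j n i' h' := by
  subst e
  rfl

lemma XX_res (m m' j n : ℕ) (hm : m ≤ m') (h0 : 0 + n ≤ n) (x : Pat (2 * m' + n)) :
    XX m j n (res (bet m m' n n 0 hm h0) x) = ZZ m m' j n hm x := by
  funext i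
  unfold XX ZZ
  split_ifs with h
  · rw [res_res, bet_win]
  · rfl

lemma fin_succ_val (k : ℕ) (i : Fin (k + 1)) :
    ((i : ℕ) + 1 < k + 1 ∧ ((i + 1 : Fin (k + 1)) : ℕ) = (i : ℕ) + 1) ∨ ((i : ℕ) + 1 = k + 1 ∧ ((i + 1 : Fin (k + 1)) : ℕ) = 0) := by
  rw [Fin.val_add_one]
  split_ifs with h
  · right
    rw [h]
    exact ⟨by simp, rfl⟩
  · left
    have h2 : (i : ℕ) ≠ k := by
      intro h3
      exact h (Fin.ext (by simpa using h3))
    exact ⟨by omega, rfl⟩

lemma XX_succ (m j k : ℕ) (x : Pat (2 * m + (k + 1))) (i : Fin (k + 1)) (h : (i : ℕ) + 1 + j ≤ k + 1) :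
    XX m j (k + 1) x (i + 1) = res (win m j (k + 1) ((i : ℕ) + 1) h) x := by
  unfold XX
  rcases fin_succ_val k i with ⟨h1, h2⟩ | ⟨h1, h2⟩
  · have h3 : ((i + 1 : Fin (k + 1)) : ℕ) + j ≤ k + 1 := by omega
    rw [dif_pos h3, win_congr m j (k + 1) _ _ h3 h h2]
  · have h3 : ((i + 1 : Fin (k + 1)) : ℕ) + j ≤ k + 1 := by omega
    rw [dif_pos h3]
    have hj : j = 0 := by omega
    subst hj
    rw [win_zero m (k + 1) ((i + 1 : Fin (k + 1)) : ℕ) ((i : ℕ) + 1) h3 h]

lemma prod01 {ι : Type} (s : Finset ι) (f : ι → ℝ) (h0 : ∀ i, 0 ≤ f i) (h1 : ∀ i, f i ≤ 1) :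
    0 ≤ ∏ i ∈ s, f i ∧ ∏ i ∈ s, f i ≤ 1 :=
  ⟨prod_nonneg (fun i _ => h0 i), prod_le_one (fun i _ => h0 i) (fun i _ => h1 i)⟩

/-- One comparison step. -/
lemma compare (S : Sys) (k j m₀ m₁ m₂ : ℕ) (h01 : m₀ ≤ m₁) (h12 : m₁ + (k + 1) ≤ m₂) (h02 : m₀ ≤ m₂)
    (K₁ : Pat (2 * m₁ + j) × Pat (2 * m₁ + j) → Pat (2 * m₀ + (j + 1)) → ℝ) (hK₁ : IsKern S m₀ m₁ j h01 K₁)
    (K₂ : Pat (2 * m₂ + j) × Pat (2 * m₂ + j) → Pat (2 * m₀ + (j + 1)) → ℝ) (hK₂ : IsKern S m₀ m₂ j h02 K₂)
    (δ : ℝ) (hδ : 0 ≤ δ) (hgap : ∀ a, en S m₀ m₂ j K₂ a - en S m₀ m₁ j K₁ a ≤ δ ^ 2)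
    (h : (Fin (k + 1) → Pat (2 * m₀ + (j + 1))) → ℝ)
    (hd : ∀ s s', (∀ i : Fin (k + 1), (i : ℕ) + (j + 1) ≤ k + 1 → s i = s' i) → h s = h s') :
    ∑ x, S.w (2 * m₁ + (k + 1)) x * h (ZZ m₀ m₁ (j + 1) (k + 1) h01 x) ≤
    ∑ x, S.w (2 * m₁ + (k + 1)) x * (∑ s, app K₁ (XX m₁ j (k + 1) x) s * h s) + (∑ s, |h s|) * ((k + 1) * δ) := by
  classical
  let R : Fin (k + 1) → Prop := fun i => (i : ℕ) + (j + 1) ≤ k + 1
  let a' : Pat (2 * m₁ + (k + 1)) → Fin (k + 1) → Pat (2 * m₀ + (j + 1)) → ℝ :=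
    fun x i b => if ZZ m₀ m₁ (j + 1) (k + 1) h01 x i = b then 1 else 0
  let b' : Pat (2 * m₁ + (k + 1)) → Fin (k + 1) → Pat (2 * m₀ + (j + 1)) → ℝ :=
    fun x i b => if R i then K₁ (XX m₁ j (k + 1) x i, XX m₁ j (k + 1) x (i + 1)) b else a' x i b
  have ha1 : ∀ x i, ∑ b, a' x i b = 1 := by
    intro x i; simp [a']
  have hb1 : ∀ x i, ∑ b, b' x i b = 1 := by
    intro x i
    simp only [b']
    split_ifs
    · exact hK₁.one _
    · exact ha1 x i
  have ha01 : ∀ x i b, 0 ≤ a' x i b ∧ a' x i b ≤ 1 := by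
    intro x i b
    simp only [a']
    split_ifs <;> norm_num
  have hb01 : ∀ x i b, 0 ≤ b' x i b ∧ b' x i b ≤ 1 := by
    intro x i b
    simp only [b']
    split_ifs
    · exact ⟨hK₁.nn _ _, hK₁.le_one _ _⟩
    · exact ha01 x i b
  have e1 : ∀ x, h (ZZ m₀ m₁ (j + 1) (k + 1) h01 x) = ∑ s : Fin (k + 1) → Pat (2 * m₀ + (j + 1)), (∏ i, a' x i (s i)) * h s := by
    intro x
    rw [sum_eq_single (ZZ m₀ m₁ (j + 1) (k + 1) h01 x)]
    · simp [a']
    · intro s _ hs
      have : ∃ i, ZZ m₀ m₁ (j + 1) (k + 1) h01 x i ≠ s i := by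
        by_contra hcon
        push Not at hcon
        exact hs (funext (fun i => (hcon i).symm))
      obtain ⟨i, hi⟩ := this
      rw [prod_eq_zero (mem_univ i) (by simp [a', hi]), zero_mul]
    · intro hcon
      exact absurd (mem_univ _) hcon
  have e2 : ∀ x, ∑ s, app K₁ (XX m₁ j (k + 1) x) s * h s = ∑ s : Fin (k + 1) → Pat (2 * m₀ + (j + 1)), (∏ i, b' x i (s i)) * h s := by
    intro x
    unfold app
    exact marg R h hd (fun i b => K₁ (XX m₁ j (k + 1) x i, XX m₁ j (k + 1) x (i + 1)) b) (b' x)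
      (fun i => hK₁.one _) (hb1 x) (fun i hi => by simp only [b', hi, if_true])
  have e3 : ∀ x (s : Fin (k + 1) → Pat (2 * m₀ + (j + 1))), (∏ i, a' x i (s i)) - (∏ i, b' x i (s i)) =
      ∑ t, (a' x t (s t) - b' x t (s t)) * ((∏ i ∈ univ.filter (fun i => i < t), b' x i (s i)) *
        (∏ i ∈ univ.filter (fun i => t < i), a' x i (s i))) := by
    intro x s
    have := prod_add_ordered (univ : Finset (Fin (k + 1))) (fun i => a' x i (s i)) (fun i => b' x i (s i) - a' x i (s i))
    simp only [add_sub_cancel] at this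
    rw [this]
    simp only [sub_add_cancel_left, ← sum_neg_distrib]
    apply sum_congr rfl
    intro t _
    ring
  -- the estimate for one term
  have e4 : ∀ (s : Fin (k + 1) → Pat (2 * m₀ + (j + 1))) (t : Fin (k + 1)),
      |∑ x, S.w (2 * m₁ + (k + 1)) x * ((a' x t (s t) - b' x t (s t)) *
        ((∏ i ∈ univ.filter (fun i => i < t), b' x i (s i)) * (∏ i ∈ univ.filter (fun i => t < i), a' x i (s i))))| ≤ δ := by
    intro s t
    by_cases ht : R t
    · have hR : (t : ℕ) + (j + 1) ≤ k + 1 := ht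
      apply abs_le_of_sq_le_sq' _ hδ |> abs_le.mpr
      refine le_trans ?_ (hgap (s t))
      have hg := gap S m₀ m₁ m₂ j (k + 1) t h01 h12 h02 ht (by omega) (by omega) K₁ hK₁ K₂ hK₂ (s t)
        (fun x => (∏ i ∈ univ.filter (fun i => i < t), b' x i (s i)) * (∏ i ∈ univ.filter (fun i => t < i), a' x i (s i)))
        (by
          intro x
          have p1 := prod01 (univ.filter (fun i => i < t)) (fun i => b' x i (s i)) (fun i => (hb01 x i _).1) (fun i => (hb01 x i _).2)
          have p2 := prod01 (univ.filter (fun i => t < i)) (fun i => a' x i (s i)) (fun i => (ha01 x i _).1) (fun i => (ha01 x i _).2)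
          have p3 := mul_nonneg p1.1 p2.1
          have p4 := mul_le_one₀ p1.2 p2.1 p2.2
          exact pow_le_one₀ p3 p4)
        (by
          intro x y hxy
          simp only [kap, Prod.mk.injEq] at hxy
          congr 1
          · apply prod_congr rfl
            intro i hi
            have hit : (i : ℕ) < t := (mem_filter.mp hi).2
            have hRi : R i := by show (i : ℕ) + (j + 1) ≤ k + 1; omega
            simp only [b', hRi, if_true]
            have q1 : ∀ x : Pat (2 * m₁ + (k + 1)), XX m₁ j (k + 1) x i = res (win m₁ j (k + 1) i (by omega)) x := by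
              intro x
              unfold XX
              rw [dif_pos (by omega)]
            have q2 : ∀ x : Pat (2 * m₁ + (k + 1)), XX m₁ j (k + 1) x (i + 1) = res (win m₁ j (k + 1) ((i : ℕ) + 1) (by omega)) x := by
              intro x
              exact XX_succ m₁ j k x i (by omega)
            rw [q1, q1, q2, q2]
            rw [throughB m₁ m₂ j (k + 1) t i h12 ht (by omega) (by omega) x y hxy.1,
              throughB m₁ m₂ j (k + 1) t ((i : ℕ) + 1) h12 ht (by omega) (by omega) x y hxy.1]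
          · apply prod_congr rfl
            intro i hi
            have hit : (t : ℕ) < i := (mem_filter.mp hi).2
            have hz : ZZ m₀ m₁ (j + 1) (k + 1) h01 (res (psi m₁ m₂ (j + 1) (k + 1) t h12 ht) x) i =
                ZZ m₀ m₁ (j + 1) (k + 1) h01 (res (psi m₁ m₂ (j + 1) (k + 1) t h12 ht) y) i := by
              unfold ZZ
              split_ifs with hRi
              · exact throughD m₀ m₁ m₂ j (k + 1) t i h01 h12 ht (by omega) hRi x y hxy.2
              · rfl
            simp only [a', hz])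
      refine le_trans (le_of_eq ?_) hg
      congr 1
      apply sum_congr rfl
      intro x _
      have q1 : XX m₁ j (k + 1) x t = res (win m₁ j (k + 1) t (by omega)) x := by
        unfold XX
        rw [dif_pos (by omega)]
      have q2 : XX m₁ j (k + 1) x (t + 1) = res (win m₁ j (k + 1) ((t : ℕ) + 1) (by omega)) x :=
        XX_succ m₁ j k x t (by omega)
      have q3 : ZZ m₀ m₁ (j + 1) (k + 1) h01 x t = res (bet m₀ m₁ (j + 1) (k + 1) t h01 ht) x := by
        unfold ZZ
        rw [dif_pos hR]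
      have q4 : a' x t (s t) - b' x t (s t) = (if res (bet m₀ m₁ (j + 1) (k + 1) t h01 ht) x = s t then 1 else 0) -
          K₁ (res (win m₁ j (k + 1) t (by omega)) x, res (win m₁ j (k + 1) ((t : ℕ) + 1) (by omega)) x) (s t) := by
        simp only [b', ht, if_true, q1, q2]
        simp only [a', q3]
      rw [q4]
    · have : ∀ x, a' x t (s t) - b' x t (s t) = 0 := by
        intro x
        simp only [b', ht, if_false, sub_self]
      simp only [this, zero_mul, mul_zero, sum_const_zero, abs_zero]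
      exact hδ
  have e5 : ∑ x, S.w (2 * m₁ + (k + 1)) x * h (ZZ m₀ m₁ (j + 1) (k + 1) h01 x) -
      ∑ x, S.w (2 * m₁ + (k + 1)) x * (∑ s, app K₁ (XX m₁ j (k + 1) x) s * h s) =
      ∑ s : Fin (k + 1) → Pat (2 * m₀ + (j + 1)), h s * ∑ t, ∑ x, S.w (2 * m₁ + (k + 1)) x * ((a' x t (s t) - b' x t (s t)) *
        ((∏ i ∈ univ.filter (fun i => i < t), b' x i (s i)) * (∏ i ∈ univ.filter (fun i => t < i), a' x i (s i)))) := by
    simp only [e1, e2]
    rw [← sum_sub_distrib]
    have e6 : ∀ x : Pat (2 * m₁ + (k + 1)), S.w (2 * m₁ + (k + 1)) x * (∑ s : Fin (k + 1) → Pat (2 * m₀ + (j + 1)), (∏ i, a' x i (s i)) * h s) -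
        S.w (2 * m₁ + (k + 1)) x * (∑ s : Fin (k + 1) → Pat (2 * m₀ + (j + 1)), (∏ i, b' x i (s i)) * h s) =
        ∑ s : Fin (k + 1) → Pat (2 * m₀ + (j + 1)), h s * (S.w (2 * m₁ + (k + 1)) x * ((∏ i, a' x i (s i)) - ∏ i, b' x i (s i))) := by
      intro x
      rw [← mul_sub, ← sum_sub_distrib, mul_sum]
      apply sum_congr rfl
      intro s _
      ring
    simp only [e6]
    rw [sum_comm]
    apply sum_congr rfl
    intro s _
    rw [← mul_sum]
    congr 1
    rw [sum_comm]
    apply sum_congr rfl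
    intro x _
    rw [e3, mul_sum]
  have e7 : ∑ s : Fin (k + 1) → Pat (2 * m₀ + (j + 1)), h s * ∑ t, ∑ x, S.w (2 * m₁ + (k + 1)) x * ((a' x t (s t) - b' x t (s t)) *
        ((∏ i ∈ univ.filter (fun i => i < t), b' x i (s i)) * (∏ i ∈ univ.filter (fun i => t < i), a' x i (s i)))) ≤
      (∑ s, |h s|) * ((k + 1) * δ) := by
    rw [sum_mul]
    apply sum_le_sum
    intro s _
    refine le_trans (le_abs_self _) ?_
    rw [abs_mul]
    apply mul_le_mul_of_nonneg_left _ (abs_nonneg _)
    refine le_trans (abs_sum_le_sum_abs _ _) ?_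
    refine le_trans (sum_le_sum (fun t _ => e4 s t)) ?_
    simp
  linarith

end

section

open Finset MeasureTheory ProbabilityTheory Filter Topology

lemma tower (S : Sys) (k : ℕ) : ∀ j, j ≤ k → ∀ (m : ℕ) (h : (Fin (k + 1) → Pat (2 * m + j)) → ℝ),
    (∀ s s', (∀ i : Fin (k + 1), (i : ℕ) + j ≤ k + 1 → s i = s' i) → h s = h s') → ∀ c : ℝ,
    (∀ l : (Fin (k + 1) → Pat (2 * m + j)) → ℝ, RotInv l → ∑ s, l s * h s ≤ c) →
    ∑ x, S.w (2 * m + (k + 1)) x * h (XX m j (k + 1) x) ≤ c := by
  classical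
  intro j
  induction j with
  | zero =>
    intro _ m h _ c Hc
    have h1 : ∀ x : Pat (2 * m + (k + 1)), h (XX m 0 (k + 1) x) ≤ c := by
      intro x
      let d : Pat (2 * m + 0) := res (win m 0 (k + 1) 0 (by omega)) x
      have hx : XX m 0 (k + 1) x = fun _ => d := by
        funext i
        have := i.2
        unfold XX
        rw [dif_pos (by omega), win_zero m (k + 1) i 0 (by omega) (by omega)]
      have := Hc (fun s => if s = (fun _ => d) then 1 else 0) ⟨by intro s; split_ifs <;> norm_num, by simp, by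
        intro s
        have : ((fun i => s (i + 1)) = fun _ => d) ↔ s = fun _ => d := by
          constructor
          · intro h2
            funext i
            have := congrFun h2 (i - 1)
            simpa using this
          · intro h2
            rw [h2]
        simp only [this]⟩
      rw [hx]
      simpa using this
    calc ∑ x, S.w (2 * m + (k + 1)) x * h (XX m 0 (k + 1) x) ≤ ∑ x, S.w (2 * m + (k + 1)) x * c :=
          sum_le_sum (fun x _ => mul_le_mul_of_nonneg_left (h1 x) (S.nn _ x))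
      _ = c := by rw [← sum_mul, S.one, one_mul]
  | succ j ih =>
    intro hj m₀ h hd c Hc
    have ih' := ih (by omega)
    -- levels
    let lev : ℕ → ℕ := fun l => m₀ + l * (k + 1)
    have hlev : ∀ l, m₀ ≤ lev l := fun l => Nat.le_add_right _ _
    have hlev2 : ∀ l, lev l + (k + 1) ≤ lev (l + 1) := fun l => by simp only [lev]; ring_nf; exact le_rfl
    choose K hK using fun l => kern_ex S m₀ (lev l) j (hlev l)
    let A : ℕ → ℝ := fun l => ∑ a, en S m₀ (lev l) j (K l) a
    have hmono : ∀ l a, en S m₀ (lev l) j (K l) a ≤ en S m₀ (lev (l + 1)) j (K (l + 1)) a := by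
      intro l a
      have := gap S m₀ (lev l) (lev (l + 1)) j (k + 1) 0 (hlev l) (hlev2 l) (hlev (l + 1)) (by omega) (by omega) (by omega)
        (K l) (hK l) (K (l + 1)) (hK (l + 1)) a (fun _ => 0) (fun _ => by norm_num) (fun _ _ _ => rfl)
      have h2 : (0 : ℝ) ≤ en S m₀ (lev (l + 1)) j (K (l + 1)) a - en S m₀ (lev l) j (K l) a :=
        le_trans (sq_nonneg _) this
      linarith
    have hA0 : ∀ l, 0 ≤ A l := fun l => sum_nonneg (fun a _ => sum_nonneg (fun x _ => mul_nonneg (S.nn _ _) (sq_nonneg _)))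
    have hA1 : ∀ l, A l ≤ 1 := by
      intro l
      simp only [A, en]
      rw [sum_comm, ← S.one (2 * lev l + (j + 1))]
      apply sum_le_sum
      intro x _
      rw [← mul_sum]
      have h2 : ∑ a, K l (kap (lev l) j x) a ^ 2 ≤ 1 := by
        rw [← (hK l).one (kap (lev l) j x)]
        apply sum_le_sum
        intro a _
        have h3 := (hK l).nn (kap (lev l) j x) a
        have h4 := (hK l).le_one (kap (lev l) j x) a
        nlinarith
      calc _ ≤ S.w (2 * lev l + (j + 1)) x * 1 := mul_le_mul_of_nonneg_left h2 (S.nn _ _)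
        _ = _ := mul_one _
    have hgapA : ∀ l a, en S m₀ (lev (l + 1)) j (K (l + 1)) a - en S m₀ (lev l) j (K l) a ≤ A (l + 1) - A l := by
      intro l a
      simp only [A]
      rw [← sum_sub_distrib]
      exact single_le_sum (f := fun a => en S m₀ (lev (l + 1)) j (K (l + 1)) a - en S m₀ (lev l) j (K l) a)
        (fun b _ => by have := hmono l b; show 0 ≤ _; linarith) (mem_univ a)
    have hAm : ∀ l, A l ≤ A (l + 1) := fun l => sum_le_sum (fun a _ => hmono l a)
    -- the inequality at level l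
    have hlevel : ∀ l, ∑ x, S.w (2 * m₀ + (k + 1)) x * h (XX m₀ (j + 1) (k + 1) x) ≤
        c + (∑ s, |h s|) * ((k + 1) * Real.sqrt (A (l + 1) - A l)) := by
      intro l
      have e1 : ∑ x, S.w (2 * m₀ + (k + 1)) x * h (XX m₀ (j + 1) (k + 1) x) =
          ∑ x, S.w (2 * lev l + (k + 1)) x * h (ZZ m₀ (lev l) (j + 1) (k + 1) (hlev l) x) := by
        have := S.push (bet m₀ (lev l) (k + 1) (k + 1) 0 (hlev l) (by omega)) (bet_mono _ _ _ _ _ _ _)
          (fun x => h (XX m₀ (j + 1) (k + 1) x))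
        rw [← this]
        simp only [XX_res]
      have e2 := compare S k j m₀ (lev l) (lev (l + 1)) (hlev l) (hlev2 l) (hlev (l + 1)) (K l) (hK l) (K (l + 1)) (hK (l + 1))
        (Real.sqrt (A (l + 1) - A l)) (Real.sqrt_nonneg _) (by
          intro a
          rw [Real.sq_sqrt (by have := hAm l; linarith)]
          exact hgapA l a) h hd
      have e3 : ∑ x, S.w (2 * lev l + (k + 1)) x * (∑ s, app (K l) (XX (lev l) j (k + 1) x) s * h s) ≤ c := by
        apply ih' (lev l) (fun s' => ∑ s, app (K l) s' s * h s)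
        · intro s' s'' hs
          unfold app
          apply marg (fun i : Fin (k + 1) => (i : ℕ) + (j + 1) ≤ k + 1) h hd
            (fun i b => K l (s' i, s' (i + 1)) b) (fun i b => K l (s'' i, s'' (i + 1)) b)
            (fun i => (hK l).one _) (fun i => (hK l).one _)
          intro i hi
          have h1 : s' i = s'' i := hs i (by omega)
          have h2 : s' (i + 1) = s'' (i + 1) := hs (i + 1) (by
            rcases fin_succ_val k i with ⟨q1, q2⟩ | ⟨q1, q2⟩ <;> omega)
          rw [h1, h2]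
        · intro l' hl'
          rw [← sum_app (K l) l' h]
          exact Hc _ (rotInv_app (K l) (hK l).nn (hK l).one l' hl')
      rw [e1]
      linarith
    -- choose a good level
    apply le_of_forall_pos_le_add
    intro ε hε
    let C : ℝ := (∑ s, |h s|) * (k + 1)
    have hC : 0 ≤ C := mul_nonneg (sum_nonneg (fun _ _ => abs_nonneg _)) (by positivity)
    have hconv : Tendsto A atTop (𝓝 (⨆ l, A l)) :=
      tendsto_atTop_ciSup (monotone_nat_of_le_succ hAm) ⟨1, by rintro _ ⟨l, rfl⟩; exact hA1 l⟩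
    have hdiff : Tendsto (fun l => A (l + 1) - A l) atTop (𝓝 0) := by
      have h1 := (hconv.comp (tendsto_add_atTop_nat 1)).sub hconv
      simpa using h1
    have hlim : Tendsto (fun l => C * Real.sqrt (A (l + 1) - A l)) atTop (𝓝 0) := by
      have h1 := (hdiff.sqrt).const_mul C
      simpa using h1
    have hev := (hlim.eventually (gt_mem_nhds hε)).exists
    obtain ⟨l, hl⟩ := hev
    have h1 := hlevel l
    have h2 : (∑ s, |h s|) * ((k + 1) * Real.sqrt (A (l + 1) - A l)) = C * Real.sqrt (A (l + 1) - A l) := by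
      simp only [C]; ring
    rw [h2] at h1
    linarith

/-- The cyclic bound. -/
lemma rot_bound (k : ℕ) (A : Type) [Fintype A] (y : A → Bool) (l : (Fin (k + 1) → A) → ℝ) (hl : RotInv l) :
    ∑ s, l s * (if y (s 0) = true ∧ y (s (0 + 1)) = false then 1 else 0) ≤ ((k + 1) / 2 : ℕ) / ((k : ℝ) + 1) := by
  classical
  let g : (Fin (k + 1) → A) → Fin (k + 1) → ℝ := fun s i => if y (s i) = true ∧ y (s (i + 1)) = false then 1 else 0
  have h1 : ∀ i, ∑ s, l s * g s (i + 1) = ∑ s, l s * g s i := by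
    intro i
    rw [← Equiv.sum_comp (rotE k A) (fun s => l s * g s i)]
    apply sum_congr rfl
    intro s _
    have e1 : l (rotE k A s) = l s := hl.rot s
    rw [e1]
    rfl
  have h3 : ∀ i : Fin (k + 1), ∑ s, l s * g s i = ∑ s, l s * g s 0 := by
    intro i
    induction i using Fin.induction with
    | zero => rfl
    | succ i ih => rw [← Fin.coeSucc_eq_succ, h1, ih]
  have h4 : ∀ s, ∑ i, g s i ≤ ((k + 1) / 2 : ℕ) := by
    intro s
    let T : Finset (Fin (k + 1)) := univ.filter (fun i => y (s i) = true ∧ y (s (i + 1)) = false)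
    have e1 : ∑ i, g s i = T.card := by
      simp only [g, T]
      rw [sum_boole]
    have e2 : Disjoint T (T.map (Equiv.addRight (1 : Fin (k + 1))).toEmbedding) := by
      rw [disjoint_left]
      intro i hi hi2
      obtain ⟨i', hi', he⟩ := mem_map.mp hi2
      have h5 := (mem_filter.mp hi).2.1
      have h6 := (mem_filter.mp hi').2.2
      have he' : i' + 1 = i := he
      rw [he'] at h6
      rw [h5] at h6
      exact absurd h6 (by decide)
    have e3 : T.card + T.card ≤ k + 1 := by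
      have h5 := card_le_univ (T ∪ T.map (Equiv.addRight (1 : Fin (k + 1))).toEmbedding)
      rw [card_union_of_disjoint e2, card_map, Fintype.card_fin] at h5
      exact h5
    rw [e1]
    exact_mod_cast (show T.card ≤ (k + 1) / 2 by omega)
  have h5 : ((k : ℝ) + 1) * ∑ s, l s * g s 0 ≤ ((k + 1) / 2 : ℕ) := by
    have e1 : ((k : ℝ) + 1) * ∑ s, l s * g s 0 = ∑ i : Fin (k + 1), ∑ s, l s * g s i := by
      simp only [h3]
      simp
    rw [e1, sum_comm]
    calc ∑ s, ∑ i, l s * g s i = ∑ s, l s * ∑ i, g s i := by simp only [mul_sum]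
      _ ≤ ∑ s, l s * ((k + 1) / 2 : ℕ) := sum_le_sum (fun s _ => mul_le_mul_of_nonneg_left (h4 s) (hl.nn s))
      _ = _ := by rw [← sum_mul, hl.one, one_mul]
  have hk : (0 : ℝ) < (k : ℝ) + 1 := by positivity
  rw [le_div_iff₀ hk]
  calc _ = ((k : ℝ) + 1) * ∑ s, l s * g s 0 := by rw [mul_comm]
    _ ≤ _ := h5

/-- The upper bound for spreadable systems. -/
lemma sys_bound (S : Sys) (k : ℕ) (hk : 1 ≤ k) :
    ∑ p ∈ univ.filter (fun p : Pat (k + 1) =>
      p (univ.image (fun j : Fin k => j.castSucc)) = true ∧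
      p (univ.image (fun j : Fin k => j.succ)) = false), S.w (k + 1) p ≤ ((k + 1) / 2 : ℕ) / ((k : ℝ) + 1) := by
  classical
  have h01 : ((0 : Fin (k + 1)) + 1 : Fin (k + 1)) = ⟨1, by omega⟩ := by
    apply Fin.ext
    rcases fin_succ_val k 0 with ⟨q1, q2⟩ | ⟨q1, q2⟩
    · rw [q2]; simp
    · simp at q1; omega
  have h := tower S k k le_rfl 0
    (fun s => if (s 0) univ = true ∧ (s (0 + 1)) univ = false then 1 else 0)
    (by
      intro s s' hs
      have e0 : s 0 = s' 0 := hs 0 (by simp)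
      have e1 : s (0 + 1) = s' (0 + 1) := hs (0 + 1) (by rw [h01]; simp only; omega)
      rw [e0, e1])
    (((k + 1) / 2 : ℕ) / ((k : ℝ) + 1))
    (fun l hl => rot_bound k _ (fun a => a univ) l hl)
  have hpush := S.push (a := k + 1) (b := 2 * 0 + (k + 1)) (Fin.cast (by omega)) (Fin.cast_strictMono _)
    (fun p => if p (univ.image (fun j : Fin k => j.castSucc)) = true ∧ p (univ.image (fun j : Fin k => j.succ)) = false then 1 else 0)
  rw [sum_filter]
  have e1 : ∑ a : Pat (k + 1), (if a (univ.image (fun j : Fin k => j.castSucc)) = true ∧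
      a (univ.image (fun j : Fin k => j.succ)) = false then S.w (k + 1) a else 0) =
      ∑ p, S.w (k + 1) p * (if p (univ.image (fun j : Fin k => j.castSucc)) = true ∧
      p (univ.image (fun j : Fin k => j.succ)) = false then 1 else 0) := by
    apply sum_congr rfl
    intro p _
    split_ifs <;> simp
  rw [e1, ← hpush]
  refine le_trans (le_of_eq ?_) h
  apply sum_congr rfl
  intro x _
  congr 1
  have q0 : XX 0 k (k + 1) x 0 univ = res (Fin.cast (by omega)) x (univ.image (fun j : Fin k => j.castSucc)) := by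
    unfold XX
    rw [dif_pos (by simp)]
    simp only [res, image_image]
    congr 1
    ext y
    simp only [mem_image, mem_univ, true_and, Function.comp]
    constructor
    · rintro ⟨t, ht⟩
      have ht2 := t.2
      refine ⟨⟨t, by omega⟩, ?_⟩
      rw [← ht]
      apply Fin.ext
      simp only [win, pm, pf, Fin.val_cast, Fin.val_castSucc, Fin.val_zero]
      split_ifs <;> omega
    · rintro ⟨t, ht⟩
      have ht2 := t.2
      refine ⟨⟨t, by omega⟩, ?_⟩
      rw [← ht]
      apply Fin.ext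
      simp only [win, pm, pf, Fin.val_cast, Fin.val_castSucc, Fin.val_zero]
      split_ifs <;> omega
  have q1 : XX 0 k (k + 1) x (0 + 1) univ = res (Fin.cast (by omega)) x (univ.image (fun j : Fin k => j.succ)) := by
    rw [h01]
    unfold XX
    rw [dif_pos (by simp only; omega)]
    simp only [res, image_image]
    congr 1
    ext y
    simp only [mem_image, mem_univ, true_and, Function.comp]
    constructor
    · rintro ⟨t, ht⟩
      have ht2 := t.2
      refine ⟨⟨t, by omega⟩, ?_⟩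
      rw [← ht]
      apply Fin.ext
      simp only [win, pm, pf, Fin.val_cast, Fin.val_succ]
      split_ifs <;> omega
    · rintro ⟨t, ht⟩
      have ht2 := t.2
      refine ⟨⟨t, by omega⟩, ?_⟩
      rw [← ht]
      apply Fin.ext
      simp only [win, pm, pf, Fin.val_cast, Fin.val_succ]
      split_ifs <;> omega
  rw [q0, q1]

/-- The general upper bound. -/
lemma f_le (k : ℕ) (hk : 1 ≤ k) : f k ≤ ((k + 1) / 2 : ℕ) / ((k : ℝ) + 1) := by
  by_contra hcon
  push Not at hcon
  obtain ⟨c, hc1, hc2⟩ := exists_between hcon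
  have hle : ∀ n, k + 1 ≤ n → f k ≤ fnk n k := by
    intro n hn
    have hanti : ∀ d, fnk (n + d) k ≤ fnk n k := by
      intro d
      induction d with
      | zero => exact le_rfl
      | succ d ih => exact le_trans (fnk_succ_le (n := n + d) (k := k) (by omega)) ih
    apply le_of_tendsto (tendsto_f k)
    filter_upwards [eventually_ge_atTop n] with N hN
    have := hanti (N - n)
    rwa [Nat.add_sub_cancel' hN] at this
  obtain ⟨S, hS⟩ := exists_raw k c (fun n hn => lt_of_lt_of_le hc2 (hle n hn))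
  have := sys_bound S k hk
  have h2 := le_trans hS this
  linarith

end

section

open Finset MeasureTheory ProbabilityTheory Filter Topology

/-- The minimum of the first k entries sits at an even position. -/
def ev (k : ℕ) (y : Fin (k + 1) → ℕ) : Prop :=
  ∃ t : Fin (k + 1), (t : ℕ) < k ∧ (∀ t' : Fin (k + 1), (t' : ℕ) < k → y t ≤ y t') ∧ Even (t : ℕ)

lemma ev_iff (k : ℕ) (y : Fin (k + 1) → ℕ) (hy : Function.Injective y) (p : Fin (k + 1)) (hp : ∀ t, y p ≤ y t)
    (o : Fin (k + 1)) (ho : (o : ℕ) < k) : ev k (fun t => y (t + (p - o))) ↔ Even (o : ℕ) := by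
  constructor
  · rintro ⟨t, _, ht2, ht3⟩
    have h1 := ht2 o ho
    have e1 : o + (p - o) = p := by abel
    simp only [e1] at h1
    have h2 : t + (p - o) = p := hy (le_antisymm h1 (hp _))
    have h3 : t = o := by
      have : t + (p - o) = o + (p - o) := by rw [h2, e1]
      exact add_right_cancel this
    rwa [h3] at ht3
  · intro h
    refine ⟨o, ho, ?_, h⟩
    intro t' _
    have e1 : o + (p - o) = p := by abel
    simp only [e1]
    exact hp _

lemma count_even (q : ℕ) : ∑ e : Fin (2 * q + 1), (if Even ((e : ℕ) + 1) then 1 else 0 : ℕ) = q := by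
  rw [Fin.sum_univ_eq_sum_range (fun e => if Even (e + 1) then 1 else 0 : ℕ → ℕ) (2 * q + 1)]
  induction q with
  | zero => simp
  | succ q ih =>
    rw [show 2 * (q + 1) + 1 = (2 * q + 1) + 1 + 1 by ring, sum_range_succ, sum_range_succ, ih]
    have h1 : Even (2 * q + 1 + 1) := ⟨q + 1, by ring⟩
    have h2 : ¬ Even (2 * q + 1 + 1 + 1) := by
      rw [Nat.not_even_iff_odd]
      exact ⟨q + 1, by ring⟩
    rw [if_pos h1, if_neg h2]

open Classical in
lemma transitions (q : ℕ) (y : Fin (2 * q + 2 + 1) → ℕ) (hy : Function.Injective y) :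
    ∑ s : Fin (2 * q + 2 + 1), (if ev (2 * q + 2) (fun t => y (t + s)) ∧ ¬ ev (2 * q + 2) (fun t => y (t + 1 + s)) then 1 else 0 : ℕ) = q + 1 := by
  obtain ⟨p, -, hp⟩ := exists_min_image univ y ⟨0, mem_univ _⟩
  have hp' : ∀ t, y p ≤ y t := fun t => hp t (mem_univ t)
  let D : Fin (2 * q + 2 + 1) → Prop := fun o => ev (2 * q + 2) (fun t => y (t + (p - o)))
  have hD : ∀ o : Fin (2 * q + 2 + 1), (o : ℕ) < 2 * q + 2 → (D o ↔ Even (o : ℕ)) := fun o ho => ev_iff _ y hy p hp' o ho
  have h1 : ∑ s : Fin (2 * q + 2 + 1), (if ev (2 * q + 2) (fun t => y (t + s)) ∧ ¬ ev (2 * q + 2) (fun t => y (t + 1 + s)) then 1 else 0 : ℕ) =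
      ∑ o : Fin (2 * q + 2 + 1), (if D o ∧ ¬ D (o - 1) then 1 else 0 : ℕ) := by
    rw [← Equiv.sum_comp (Equiv.subLeft p)]
    apply sum_congr rfl
    intro o _
    have e1 : (fun t => y (t + 1 + (p - o))) = fun t => y (t + (p - (o - 1))) := by
      funext t
      congr 1
      abel
    simp only [D, Equiv.subLeft_apply, e1]
  rw [h1, Fin.sum_univ_succ]
  have h2 : ∀ e : Fin (2 * q + 2), (e.succ - 1 : Fin (2 * q + 2 + 1)) = e.castSucc := by
    intro e
    rw [← Fin.coeSucc_eq_succ]
    abel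
  simp only [h2]
  rw [Fin.sum_univ_castSucc (n := 2 * q + 1)]
  have h3 : ∀ e : Fin (2 * q + 1), (if D e.castSucc.succ ∧ ¬ D e.castSucc.castSucc then 1 else 0 : ℕ) = if Even ((e : ℕ) + 1) then 1 else 0 := by
    intro e
    have he := e.2
    have q1 := hD e.castSucc.succ (by simp only [Fin.val_succ, Fin.val_castSucc]; omega)
    have q2 := hD e.castSucc.castSucc (by simp only [Fin.val_castSucc]; omega)
    rw [q1, q2]
    simp only [Fin.val_succ, Fin.val_castSucc]
    by_cases h : Even ((e : ℕ) + 1)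
    · have h' : ¬ Even (e : ℕ) := by
        intro h'
        exact (Nat.even_add_one.mp h) h'
      simp [h, h']
    · simp [h]
  simp only [h3]
  rw [count_even]
  have h0 : D 0 := (hD 0 (by simp)).mpr (by simp)
  have hl : ¬ D (Fin.last (2 * q + 1)).castSucc := by
    rw [hD _ (by simp)]
    simp only [Fin.val_castSucc, Fin.val_last, Nat.not_even_iff_odd]
    exact ⟨q, rfl⟩
  have h4 : (0 - 1 : Fin (2 * q + 2 + 1)) = (Fin.last (2 * q + 1)).succ := by
    rw [Fin.succ_last]
    rw [sub_eq_iff_eq_add, Fin.last_add_one]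
  rw [h4]
  by_cases hD1 : D (Fin.last (2 * q + 1)).succ
  · rw [if_neg (fun hh => hh.2 hD1), if_pos ⟨hD1, hl⟩]
    omega
  · rw [if_pos ⟨h0, hD1⟩, if_neg (fun hh => hD1 hh.1)]
    omega

/-- The events. -/
def Ep (n : ℕ) (S : Finset (Fin n)) : Set (Equiv.Perm (Fin n)) :=
  {σ | ∃ x ∈ S, (∀ x' ∈ S, σ x ≤ σ x') ∧ Even ((S.filter (fun z => z < x)).card)}

lemma mem_Ep {n k : ℕ} (u : Fin k → Fin n) (hu : StrictMono u) (σ : Equiv.Perm (Fin n)) :
    σ ∈ Ep n (univ.image u) ↔ ∃ t, (∀ t', σ (u t) ≤ σ (u t')) ∧ Even (t : ℕ) := by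
  have hc : ∀ t : Fin k, ((univ.image u).filter (fun z => z < u t)).card = t := by
    intro t
    have : (univ.image u).filter (fun z => z < u t) = (Iio t).image u := by
      ext z
      simp only [mem_filter, mem_image, mem_univ, true_and, mem_Iio]
      constructor
      · rintro ⟨⟨t', rfl⟩, h⟩
        exact ⟨t', hu.lt_iff_lt.mp h, rfl⟩
      · rintro ⟨t', h, rfl⟩
        exact ⟨⟨t', rfl⟩, hu h⟩
    rw [this, card_image_of_injective _ hu.injective, Fin.card_Iio]
  constructor
  · rintro ⟨x, hx, h1, h2⟩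
    obtain ⟨t, -, rfl⟩ := mem_image.mp hx
    rw [hc] at h2
    exact ⟨t, fun t' => h1 _ (mem_image_of_mem _ (mem_univ _)), h2⟩
  · rintro ⟨t, h1, h2⟩
    refine ⟨u t, mem_image_of_mem _ (mem_univ _), ?_, ?_⟩
    · intro x' hx'
      obtain ⟨t', -, rfl⟩ := mem_image.mp hx'
      exact h1 t'
    · rw [hc]
      exact h2

open Classical in
lemma pair_count (q n : ℕ) (i : Fin (2 * q + 2 + 1) → Fin n) (hi : StrictMono i) :
    (2 * q + 3) * (univ.filter (fun σ : Equiv.Perm (Fin n) =>
      σ ∈ Ep n (univ.image (fun j : Fin (2 * q + 2) => i j.castSucc)) ∧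
      σ ∉ Ep n (univ.image (fun j : Fin (2 * q + 2) => i j.succ)))).card =
    Fintype.card (Equiv.Perm (Fin n)) * (q + 1) := by
  let y : Equiv.Perm (Fin n) → Fin (2 * q + 2 + 1) → ℕ := fun σ t => (σ (i t) : ℕ)
  have hy : ∀ σ, Function.Injective (y σ) := by
    intro σ a b hab
    exact hi.injective (σ.injective (Fin.ext hab))
  let T : (Fin (2 * q + 2 + 1) → ℕ) → ℕ := fun z => if ev (2 * q + 2) z ∧ ¬ ev (2 * q + 2) (fun t => z (t + 1)) then 1 else 0
  have hA : ∀ σ : Equiv.Perm (Fin n), σ ∈ Ep n (univ.image (fun j : Fin (2 * q + 2) => i j.castSucc)) ↔ ev (2 * q + 2) (y σ) := by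
    intro σ
    rw [mem_Ep _ (fun a b hab => hi (Fin.castSucc_lt_castSucc_iff.mpr hab))]
    constructor
    · rintro ⟨t, h1, h2⟩
      refine ⟨t.castSucc, by simp, ?_, by simpa using h2⟩
      intro t' ht'
      have := h1 ⟨t', ht'⟩
      exact this
    · rintro ⟨t, h0, h1, h2⟩
      refine ⟨⟨t, h0⟩, ?_, h2⟩
      intro t'
      exact h1 t'.castSucc (by simp)
  have hB : ∀ σ : Equiv.Perm (Fin n), σ ∈ Ep n (univ.image (fun j : Fin (2 * q + 2) => i j.succ)) ↔
      ev (2 * q + 2) (fun t => y σ (t + 1)) := by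
    intro σ
    rw [mem_Ep _ (fun a b hab => hi (Fin.succ_lt_succ_iff.mpr hab))]
    constructor
    · rintro ⟨t, h1, h2⟩
      refine ⟨t.castSucc, by simp, ?_, by simpa using h2⟩
      intro t' ht'
      have := h1 ⟨t', ht'⟩
      have e1 : t' + 1 = (⟨t', ht'⟩ : Fin (2 * q + 2)).succ := by
        rw [← Fin.coeSucc_eq_succ]
        rfl
      simp only [y, e1, Fin.coeSucc_eq_succ]
      exact this
    · rintro ⟨t, h0, h1, h2⟩
      refine ⟨⟨t, h0⟩, ?_, h2⟩
      intro t'
      have := h1 t'.castSucc (by simp)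
      have e1 : t + 1 = (⟨t, h0⟩ : Fin (2 * q + 2)).succ := by
        rw [← Fin.coeSucc_eq_succ]
        rfl
      simp only [y, e1, Fin.coeSucc_eq_succ] at this
      exact this
  have h1 : (univ.filter (fun σ : Equiv.Perm (Fin n) =>
      σ ∈ Ep n (univ.image (fun j : Fin (2 * q + 2) => i j.castSucc)) ∧
      σ ∉ Ep n (univ.image (fun j : Fin (2 * q + 2) => i j.succ)))).card = ∑ σ, T (y σ) := by
    rw [card_filter]
    apply sum_congr rfl
    intro σ _
    simp only [T, hA, hB]
  have h2 : ∀ s : Fin (2 * q + 2 + 1), ∑ σ, T (y σ) = ∑ σ, T (fun t => y σ (t + s)) := by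
    intro s
    let π : Equiv.Perm (Fin n) := (Equiv.addRight s).viaFintypeEmbedding ⟨i, hi.injective⟩
    have hπ : ∀ t, π (i t) = i (t + s) := by
      intro t
      have := Equiv.Perm.viaFintypeEmbedding_apply_image (Equiv.addRight s) (⟨i, hi.injective⟩ : Fin (2 * q + 2 + 1) ↪ Fin n) t
      exact this
    rw [← Equiv.sum_comp (Equiv.mulRight π)]
    apply sum_congr rfl
    intro σ _
    congr 1
    funext t
    simp only [y, Equiv.coe_mulRight, Equiv.Perm.mul_apply, hπ]
  rw [h1]
  have h3 : (2 * q + 3) * ∑ σ, T (y σ) = ∑ s : Fin (2 * q + 2 + 1), ∑ σ, T (fun t => y σ (t + s)) := by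
    rw [sum_congr rfl (fun s _ => (h2 s).symm), sum_const, card_univ, Fintype.card_fin]
    rfl
  rw [h3, sum_comm]
  have h4 : ∀ σ, ∑ s : Fin (2 * q + 2 + 1), T (fun t => y σ (t + s)) = q + 1 := fun σ => transitions q (y σ) (hy σ)
  simp only [h4]
  rw [sum_const, card_univ, smul_eq_mul]

lemma fnk_ge (q n : ℕ) (hn : 2 * q + 2 + 1 ≤ n) : ((q : ℝ) + 1) / (2 * q + 3) ≤ fnk n (2 * q + 2) := by
  classical
  letI : MeasurableSpace (Equiv.Perm (Fin n)) := ⊤
  have hmeas : ∀ S : Set (Equiv.Perm (Fin n)), MeasurableSet S := fun S => trivial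
  let μ : Measure (Equiv.Perm (Fin n)) := (PMF.uniformOfFintype (Equiv.Perm (Fin n))).toMeasure
  have hμ : IsProbabilityMeasure μ := by infer_instance
  refine le_trans ?_ (le_fnk hn μ (Ep n) (fun S _ => hmeas _))
  have := exists_pair (k := 2 * q + 2) (n := n) hn
  apply le_ciInf
  rintro ⟨⟨A, B⟩, i, hi, hA, hB⟩
  simp only at hA hB
  subst hA hB
  have h1 := pair_count q n i hi
  have h2 : μ.real (Ep n (univ.image (fun j : Fin (2 * q + 2) => i j.castSucc)) ∩
      (Ep n (univ.image (fun j : Fin (2 * q + 2) => i j.succ)))ᶜ) =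
      ((univ.filter (fun σ : Equiv.Perm (Fin n) =>
      σ ∈ Ep n (univ.image (fun j : Fin (2 * q + 2) => i j.castSucc)) ∧
      σ ∉ Ep n (univ.image (fun j : Fin (2 * q + 2) => i j.succ)))).card : ℝ) / Fintype.card (Equiv.Perm (Fin n)) := by
    unfold Measure.real
    rw [PMF.toMeasure_uniformOfFintype_apply _ (hmeas _)]
    rw [ENNReal.toReal_div, ENNReal.toReal_natCast, ENNReal.toReal_natCast]
    congr 2
    rw [Fintype.card_of_subtype]
    intro σ
    simp
  show _ ≤ μ.real _
  rw [h2]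
  have h3 : (0 : ℝ) < Fintype.card (Equiv.Perm (Fin n)) := by exact_mod_cast Fintype.card_pos
  have h4 : (0 : ℝ) < 2 * q + 3 := by positivity
  rw [div_le_div_iff₀ h4 h3]
  have h5 : ((2 * q + 3 : ℕ) : ℝ) * ((univ.filter (fun σ : Equiv.Perm (Fin n) =>
      σ ∈ Ep n (univ.image (fun j : Fin (2 * q + 2) => i j.castSucc)) ∧
      σ ∉ Ep n (univ.image (fun j : Fin (2 * q + 2) => i j.succ)))).card : ℝ) =
      (Fintype.card (Equiv.Perm (Fin n)) : ℝ) * ((q + 1 : ℕ) : ℝ) := by exact_mod_cast h1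
  push_cast at h5
  linarith

lemma f_ge (q : ℕ) : ((q : ℝ) + 1) / (2 * q + 3) ≤ f (2 * q + 2) :=
  ge_of_tendsto (tendsto_f _) (Filter.eventually_atTop.mpr ⟨2 * q + 2 + 1, fun n hn => fnk_ge q n hn⟩)

end

section

open Filter Topology

/-- For every even k the limit f(k) of f(n, k) is k / (2k + 2); in particular f(4) = 2/5. -/
theorem result :
    (∀ k : ℕ, Even k → 0 < k → Tendsto (fun n => fnk n k) atTop (𝓝 ((k : ℝ) / (2 * k + 2)))) ∧
    Tendsto (fun n => fnk n 4) atTop (𝓝 (2 / 5)) ∧ f 4 = 2 / 5 := by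
  have key : ∀ k : ℕ, Even k → 0 < k → f k = (k : ℝ) / (2 * k + 2) := by
    intro k hk h0
    obtain ⟨r, hr⟩ := hk
    obtain ⟨q, rfl⟩ : ∃ q, k = 2 * q + 2 := ⟨r - 1, by omega⟩
    have h1 := f_le (2 * q + 2) (by omega)
    have h2 := f_ge q
    have h3 : (2 * q + 2 + 1) / 2 = q + 1 := by omega
    rw [h3] at h1
    have h4 : (0 : ℝ) < 2 * q + 3 := by positivity
    have e1 : ((q + 1 : ℕ) : ℝ) / (((2 * q + 2 : ℕ) : ℝ) + 1) = ((q : ℝ) + 1) / (2 * q + 3) := by
      push_cast
      congr 1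
      ring
    have e2 : ((2 * q + 2 : ℕ) : ℝ) / (2 * ((2 * q + 2 : ℕ) : ℝ) + 2) = ((q : ℝ) + 1) / (2 * q + 3) := by
      push_cast
      rw [div_eq_div_iff (by positivity) (by positivity)]
      ring
    rw [e1] at h1
    rw [e2]
    exact le_antisymm h1 h2
  have h4 : f 4 = 2 / 5 := by
    have := key 4 ⟨2, rfl⟩ (by norm_num)
    rw [this]
    norm_num
  refine ⟨?_, ?_, h4⟩
  · intro k hk h0
    rw [← key k hk h0]
    exact tendsto_f k
  · rw [← h4]
    exact tendsto_f 4

end

end Pool.Agent.Results.MP_a60f11_co.EvenValues
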