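import Mathlib

set_option autoImplicit false

open MeasureTheory ProbabilityTheory Filter Topology

namespace Pool.Agent.Results.MP_a60f11_co.FThreeBound

/-- (A, B) is a (k, n)-shift pair: there are i_0 < ... < i_k in Fin n such that A consists of the
first k of them and B of the last k of them. -/
def IsShiftPair (k n : ℕ) (P : Finset (Fin n) × Finset (Fin n)) : Prop :=
  ∃ i : Fin (k + 1) → Fin n, StrictMono i ∧
    P.1 = Finset.univ.image (fun j : Fin k => i j.castSucc) ∧
    P.2 = Finset.univ.image (fun j : Fin k => i j.succ)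

/-- The minimum, over all (k, n)-shift pairs (A, B), of the probability that E A occurs while
E B does not. -/
noncomputable def minProb {Ω : Type} [MeasurableSpace Ω] (μ : Measure Ω) (k n : ℕ)
    (E : Finset (Fin n) → Set Ω) : ℝ :=
  ⨅ P : {P : Finset (Fin n) × Finset (Fin n) // IsShiftPair k n P}, μ.real (E P.1.1 ∩ (E P.1.2)ᶜ)

/-- The supremum f(n, k) of minProb over all probability spaces carrying an event E S for every
k-element subset S of Fin n. -/
noncomputable def fnk (n k : ℕ) : ℝ :=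
  sSup {t : ℝ | ∃ (Ω : Type) (_ : MeasurableSpace Ω) (μ : Measure Ω) (_ : IsProbabilityMeasure μ)
    (E : Finset (Fin n) → Set Ω), (∀ S, S.card = k → MeasurableSet (E S)) ∧ t = minProb μ k n E}

/-- The limit f(k) of f(n, k) as n tends to infinity. -/
noncomputable def f (k : ℕ) : ℝ := limUnder atTop (fun n => fnk n k)

/-! Basic properties -/

lemma exists_pair {k n : ℕ} (h : k + 1 ≤ n) :
    Nonempty {P : Finset (Fin n) × Finset (Fin n) // IsShiftPair k n P} :=
  ⟨⟨(_, _), Fin.castLE h, Fin.strictMono_castLE h, rfl, rfl⟩⟩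

lemma bdd {Ω : Type} [MeasurableSpace Ω] (μ : Measure Ω) (k n : ℕ) (E : Finset (Fin n) → Set Ω) :
    BddBelow (Set.range fun P : {P : Finset (Fin n) × Finset (Fin n) // IsShiftPair k n P} =>
      μ.real (E P.1.1 ∩ (E P.1.2)ᶜ)) := by
  refine ⟨0, ?_⟩
  rintro _ ⟨P, rfl⟩
  exact measureReal_nonneg

lemma minProb_le_one {Ω : Type} [MeasurableSpace Ω] (μ : Measure Ω) [IsProbabilityMeasure μ]
    {k n : ℕ} (h : k + 1 ≤ n) (E : Finset (Fin n) → Set Ω) : minProb μ k n E ≤ 1 := by
  obtain ⟨P⟩ := exists_pair h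
  exact le_trans (ciInf_le (bdd μ k n E) P) measureReal_le_one

lemma minProb_nonneg {Ω : Type} [MeasurableSpace Ω] (μ : Measure Ω)
    (k n : ℕ) (E : Finset (Fin n) → Set Ω) : 0 ≤ minProb μ k n E :=
  Real.iInf_nonneg (fun _ => measureReal_nonneg)

lemma bddAbove_set {n k : ℕ} (h : k + 1 ≤ n) :
    BddAbove {t : ℝ | ∃ (Ω : Type) (_ : MeasurableSpace Ω) (μ : Measure Ω) (_ : IsProbabilityMeasure μ)
    (E : Finset (Fin n) → Set Ω), (∀ S, S.card = k → MeasurableSet (E S)) ∧ t = minProb μ k n E} := by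
  refine ⟨1, ?_⟩
  rintro t ⟨Ω, _, μ, _, E, -, rfl⟩
  exact minProb_le_one μ h E

lemma nonempty_set (n k : ℕ) :
    {t : ℝ | ∃ (Ω : Type) (_ : MeasurableSpace Ω) (μ : Measure Ω) (_ : IsProbabilityMeasure μ)
    (E : Finset (Fin n) → Set Ω), (∀ S, S.card = k → MeasurableSet (E S)) ∧ t = minProb μ k n E}.Nonempty :=
  ⟨_, Unit, inferInstance, Measure.dirac (), inferInstance, fun _ => ∅, fun _ _ => MeasurableSet.empty, rfl⟩

lemma le_fnk {n k : ℕ} (h : k + 1 ≤ n) {Ω : Type} [MeasurableSpace Ω] (μ : Measure Ω)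
    [IsProbabilityMeasure μ] (E : Finset (Fin n) → Set Ω) (hE : ∀ S, S.card = k → MeasurableSet (E S)) :
    minProb μ k n E ≤ fnk n k :=
  le_csSup (bddAbove_set h) ⟨Ω, inferInstance, μ, inferInstance, E, hE, rfl⟩

lemma fnk_nonneg (n k : ℕ) : 0 ≤ fnk n k := by
  apply Real.sSup_nonneg
  rintro t ⟨Ω, _, μ, _, E, -, rfl⟩
  exact minProb_nonneg μ k n E

lemma fnk_succ_le {n k : ℕ} (h : k + 1 ≤ n) : fnk (n + 1) k ≤ fnk n k := by
  apply csSup_le (nonempty_set _ _)
  rintro t ⟨Ω, _, μ, _, E, hE, rfl⟩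
  have hE' : ∀ S : Finset (Fin n), S.card = k →
      MeasurableSet ((fun S : Finset (Fin n) => E (S.map Fin.castSuccEmb)) S) := by
    intro S hS
    exact hE _ (by rw [Finset.card_map]; exact hS)
  refine le_trans ?_ (le_fnk h μ (fun S : Finset (Fin n) => E (S.map Fin.castSuccEmb)) hE')
  have := exists_pair h
  apply le_ciInf
  rintro ⟨⟨A, B⟩, i, hi, hA, hB⟩
  have hP : IsShiftPair k (n + 1) (A.map Fin.castSuccEmb, B.map Fin.castSuccEmb) := by
    refine ⟨fun j => (i j).castSucc, ?_, ?_, ?_⟩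
    · intro x y hxy
      exact Fin.castSucc_lt_castSucc_iff.mpr (hi hxy)
    · ext x
      simp only at hA
      simp [hA]
    · ext x
      simp only at hB
      simp [hB]
  exact ciInf_le (bdd μ k (n + 1) E) ⟨_, hP⟩

lemma tendsto_f (k : ℕ) : Tendsto (fun n => fnk n k) atTop (𝓝 (f k)) := by
  have hanti : Antitone (fun n => fnk (n + (k + 1)) k) := by
    apply antitone_nat_of_succ_le
    intro n
    have := fnk_succ_le (n := n + (k + 1)) (k := k) (by omega)
    have e : n + 1 + (k + 1) = n + (k + 1) + 1 := by ring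
    rw [e]; exact this
  have hb : BddBelow (Set.range (fun n => fnk (n + (k + 1)) k)) :=
    ⟨0, by rintro _ ⟨n, rfl⟩; exact fnk_nonneg _ _⟩
  have h1 := tendsto_atTop_ciInf hanti hb
  have h2 : Tendsto (fun n => fnk n k) atTop (𝓝 (⨅ n, fnk (n + (k + 1)) k)) :=
    (tendsto_add_atTop_iff_nat (k + 1)).mp h1
  unfold f
  rw [h2.limUnder_eq]
  exact h2

/-! The construction -/

/-- Integer weights of the eight labels; label a has probability w a / 10. -/
def w : Fin 8 → ℕ := ![1, 1, 1, 1, 1, 1, 3, 1]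

/-- The decision table, row a, column b, bit c. -/
def tab : Fin 8 → Fin 8 → ℕ :=
  ![![254, 64, 0, 64, 0, 0, 0, 64],
    ![254, 252, 64, 64, 64, 64, 0, 64],
    ![254, 252, 88, 64, 64, 124, 0, 124],
    ![254, 252, 92, 88, 80, 124, 0, 124],
    ![255, 255, 255, 255, 80, 255, 0, 255],
    ![254, 252, 88, 64, 64, 88, 0, 124],
    ![255, 255, 255, 255, 80, 255, 80, 255],
    ![254, 252, 64, 64, 64, 64, 0, 124]]

/-- The decision function on triples of labels. -/
def g (a b c : Fin 8) : Bool := (tab a b).testBit c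

lemma count : ∑ a : Fin 8, ∑ b : Fin 8, ∑ c : Fin 8, ∑ d : Fin 8,
    (if g a b c = true ∧ g b c d = false then w a * w b * w c * w d else 0) = 3793 := by
  decide +kernel

lemma sum_w : ∑ a : Fin 8, (w a : ENNReal) / 10 = 1 := by
  have h : ∑ a : Fin 8, (w a : ENNReal) / 10 = ((∑ a : Fin 8, w a : ℕ) : ENNReal) / 10 := by
    rw [Nat.cast_sum]
    simp only [div_eq_mul_inv]
    rw [← Finset.sum_mul]
  have h2 : ∑ a : Fin 8, w a = 10 := by decide
  rw [h, h2]
  exact ENNReal.div_self (by norm_num) (by norm_num)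

/-- The law of one label. -/
noncomputable def ν : Measure (Fin 8) := (PMF.ofFintype (fun a : Fin 8 => (w a : ENNReal) / 10) sum_w).toMeasure

instance : IsProbabilityMeasure ν := by unfold ν; infer_instance

lemma ν_real (a : Fin 8) : ν.real {a} = (w a : ℝ) / 10 := by
  unfold ν Measure.real
  rw [PMF.toMeasure_apply_singleton _ _ (MeasurableSet.singleton _)]
  simp

/-- Independent labels. -/
noncomputable def μ (n : ℕ) : Measure (Fin n → Fin 8) := Measure.pi (fun _ => ν)

instance (n : ℕ) : IsProbabilityMeasure (μ n) := by unfold μ; infer_instance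

lemma law {n : ℕ} (i : Fin 4 → Fin n) (hi : StrictMono i) :
    (μ n).map (fun x j => x (i j)) = Measure.pi (fun _ : Fin 4 => ν) := by
  have h1 : iIndepFun (fun (k : Fin n) (x : Fin n → Fin 8) => x k) (μ n) :=
    iIndepFun_pi (X := fun _ => id) (fun _ => aemeasurable_id)
  have h2 := h1.precomp hi.injective
  have h3 := (iIndepFun_iff_map_fun_eq_pi_map (fun j => (measurable_pi_apply (i j)).aemeasurable)).mp h2
  have h4 : ∀ j : Fin 4, (μ n).map (fun x : Fin n → Fin 8 => x (i j)) = ν := fun j =>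
    (measurePreserving_eval (fun _ : Fin n => ν) (i j)).map_eq
  simp only [h4] at h3
  exact h3

/-- Explicit equivalence between functions on Fin 4 and quadruples. -/
def e4 : (Fin 4 → Fin 8) ≃ Fin 8 × Fin 8 × Fin 8 × Fin 8 where
  toFun y := (y 0, y 1, y 2, y 3)
  invFun t := ![t.1, t.2.1, t.2.2.1, t.2.2.2]
  left_inv y := by funext j; fin_cases j <;> rfl
  right_inv t := rfl

lemma pi4 : (Measure.pi (fun _ : Fin 4 => ν)).real
    {y | g (y 0) (y 1) (y 2) = true ∧ g (y 1) (y 2) (y 3) = false} = 3793 / 10000 := by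
  have h1 : ({y | g (y 0) (y 1) (y 2) = true ∧ g (y 1) (y 2) (y 3) = false} : Set (Fin 4 → Fin 8)) =
      ((Finset.univ.filter (fun y : Fin 4 → Fin 8 =>
        g (y 0) (y 1) (y 2) = true ∧ g (y 1) (y 2) (y 3) = false) : Finset (Fin 4 → Fin 8)) : Set (Fin 4 → Fin 8)) := by
    ext y; simp
  rw [h1, ← sum_measureReal_singleton]
  have h2 : ∀ y : Fin 4 → Fin 8, (Measure.pi (fun _ : Fin 4 => ν)).real {y} =
      ((w (y 0) * w (y 1) * w (y 2) * w (y 3) : ℕ) : ℝ) / 10000 := by
    intro y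
    have h3 : (Measure.pi (fun _ : Fin 4 => ν)).real {y} = ∏ j, ν.real {y j} := by
      unfold Measure.real
      rw [Measure.pi_singleton, ENNReal.toReal_prod]
    rw [h3, Fin.prod_univ_four]
    simp only [ν_real]
    push_cast
    ring
  simp only [h2]
  rw [Finset.sum_filter]
  have h5 := Equiv.sum_comp e4 (fun t : Fin 8 × Fin 8 × Fin 8 × Fin 8 =>
    if g t.1 t.2.1 t.2.2.1 = true ∧ g t.2.1 t.2.2.1 t.2.2.2 = false then
      ((w t.1 * w t.2.1 * w t.2.2.1 * w t.2.2.2 : ℕ) : ℝ) / 10000 else 0)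
  have h6 : ∀ y : Fin 4 → Fin 8, (e4 y).1 = y 0 ∧ (e4 y).2.1 = y 1 ∧ (e4 y).2.2.1 = y 2 ∧ (e4 y).2.2.2 = y 3 :=
    fun y => ⟨rfl, rfl, rfl, rfl⟩
  refine Eq.trans h5 ?_
  simp only [Fintype.sum_prod_type]
  have h7 : ∀ a b c d : Fin 8, (if g a b c = true ∧ g b c d = false then
      ((w a * w b * w c * w d : ℕ) : ℝ) / 10000 else 0) =
      ((if g a b c = true ∧ g b c d = false then w a * w b * w c * w d else 0 : ℕ) : ℝ) / 10000 := by
    intro a b c d
    split_ifs <;> simp
  simp only [h7, ← Finset.sum_div, ← Nat.cast_sum]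
  rw [count]
  norm_num

/-- The events: the decision function is applied to the labels of the three elements of S in
increasing order. -/
def Ev (n : ℕ) (S : Finset (Fin n)) : Set (Fin n → Fin 8) :=
  {x | ∃ h : S.card = 3, g (x (S.orderEmbOfFin h 0)) (x (S.orderEmbOfFin h 1)) (x (S.orderEmbOfFin h 2)) = true}

lemma Ev_eq {n : ℕ} (j : Fin 3 → Fin n) (hj : StrictMono j) :
    Ev n (Finset.univ.image j) = {x | g (x (j 0)) (x (j 1)) (x (j 2)) = true} := by
  have hc : (Finset.univ.image j).card = 3 := by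
    rw [Finset.card_image_of_injective _ hj.injective]; simp
  have he : j = (Finset.univ.image j).orderEmbOfFin hc :=
    Finset.orderEmbOfFin_unique hc (fun x => Finset.mem_image_of_mem _ (Finset.mem_univ _)) hj
  ext x
  unfold Ev
  simp only [Set.mem_ofPred_eq]
  constructor
  · rintro ⟨h, hx⟩
    rw [← he] at hx
    exact hx
  · intro hx
    refine ⟨hc, ?_⟩
    rw [← he]
    exact hx

lemma pair_value {n : ℕ} (P : Finset (Fin n) × Finset (Fin n)) (hP : IsShiftPair 3 n P) :
    (μ n).real (Ev n P.1 ∩ (Ev n P.2)ᶜ) = 3793 / 10000 := by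
  obtain ⟨i, hi, hA, hB⟩ := hP
  have hj1 : StrictMono (fun j : Fin 3 => i j.castSucc) := fun x y hxy => hi (Fin.castSucc_lt_castSucc_iff.mpr hxy)
  have hj2 : StrictMono (fun j : Fin 3 => i j.succ) := fun x y hxy => hi (Fin.succ_lt_succ_iff.mpr hxy)
  rw [hA, hB, Ev_eq _ hj1, Ev_eq _ hj2]
  have h1 : ({x | g (x (i (0 : Fin 3).castSucc)) (x (i (1 : Fin 3).castSucc)) (x (i (2 : Fin 3).castSucc)) = true} ∩
      {x | g (x (i (0 : Fin 3).succ)) (x (i (1 : Fin 3).succ)) (x (i (2 : Fin 3).succ)) = true}ᶜ : Set (Fin n → Fin 8)) =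
      (fun (x : Fin n → Fin 8) (j : Fin 4) => x (i j)) ⁻¹'
        {y | g (y 0) (y 1) (y 2) = true ∧ g (y 1) (y 2) (y 3) = false} := by
    ext x
    simp only [Set.mem_inter_iff, Set.mem_ofPred_eq, Set.mem_compl_iff, Set.mem_preimage, Bool.not_eq_true]
    exact Iff.rfl
  rw [h1]
  have h2 : Measurable (fun (x : Fin n → Fin 8) (j : Fin 4) => x (i j)) :=
    measurable_pi_lambda _ (fun j => measurable_pi_apply (i j))
  have h3 : (μ n).real ((fun (x : Fin n → Fin 8) (j : Fin 4) => x (i j)) ⁻¹'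
        {y | g (y 0) (y 1) (y 2) = true ∧ g (y 1) (y 2) (y 3) = false}) =
      ((μ n).map (fun x j => x (i j))).real
        {y | g (y 0) (y 1) (y 2) = true ∧ g (y 1) (y 2) (y 3) = false} := by
    rw [map_measureReal_apply h2 (Set.toFinite _).measurableSet]
  rw [h3, law i hi, pi4]

lemma lower {n : ℕ} (h : 4 ≤ n) : 3793 / 10000 ≤ fnk n 3 := by
  refine le_trans ?_ (le_fnk (by omega) (μ n) (Ev n) (fun S _ => (Set.toFinite _).measurableSet))
  have := exists_pair (k := 3) (n := n) (by omega)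
  apply le_ciInf
  intro P
  rw [pair_value P.1 P.2]

/-- The limit defining f(3) exists, and f(3) is at least 0.3793; in particular it is not 3/8. -/
theorem result : Tendsto (fun n => fnk n 3) atTop (𝓝 (f 3)) ∧ 3793 / 10000 ≤ f 3 ∧ 3 / 8 < f 3 := by
  have h1 := tendsto_f 3
  have h2 : 3793 / 10000 ≤ f 3 :=
    ge_of_tendsto h1 (Filter.eventually_atTop.mpr ⟨4, fun n hn => lower hn⟩)
  exact ⟨h1, h2, by linarith⟩

end Pool.Agent.Results.MP_a60f11_co.FThreeBound
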